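import Pool.Agent.H442R3.PD.Tree

/-!
# The partition dimension: completeness of the reduction
-/

namespace Pool.Agent.H442R3.PD

/-- The enumeration of the numbers different from `m`. -/
def skip (m i : ℕ) : ℕ := if i < m then i else i + 1

/-- The inverse of `skip`. -/
def unskip (m i : ℕ) : ℕ := if i < m then i else i - 1

theorem skip_ne (m i : ℕ) : skip m i ≠ m := by
  unfold skip
  split_ifs <;> omega

theorem skip_le {m i B : ℕ} (hi : i < B) : skip m i ≤ B := by
  unfold skip
  split_ifs <;> omega

theorem skip_inj {m i j : ℕ} (h : skip m i = skip m j) : i = j := by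
  unfold skip at h
  split_ifs at h <;> omega

theorem skip_unskip {m i : ℕ} (h : i ≠ m) : skip m (unskip m i) = i := by
  unfold skip unskip
  split_ifs <;> omega

theorem unskip_lt {m i B : ℕ} (h : i ≠ m) (hi : i ≤ B) (hm : m ≤ B) : unskip m i < B := by
  unfold unskip
  split_ifs <;> omega

/-- A packing of the items into bins, and classes for the hubs. -/
structure Pk (P : Par) : Type where
  /-- the bins -/
  m : ℕ → ℕ
  /-- the classes of the hubs -/
  col : ℕ → ℕ → ℕ → ℕ
  hm : ∀ q < P.B * P.B, 1 ≤ m q ∧ m q ≤ P.B
  hc : ∀ q d r, r < P.N q d → col q d r ≤ P.B ∧ col q d r ≠ m q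
  hi : ∀ q d r q' r', r < P.N q d → r' < P.N q' d → m q = m q' → col q d r = col q' d r' →
    q = q' ∧ r = r'

variable {P : Par} (K : Pk P)

/-- The class of a vertex. -/
def colN : Hub × ℕ → ℕ
  | (Hub.c, 0) => 0
  | (Hub.c, l + 1) => l
  | (Hub.z a, 0) => a + 1
  | (Hub.z _, l + 1) => l
  | (Hub.w b, 0) => b + 1
  | (Hub.w _, l + 1) => skip 0 l
  | (Hub.y q d r, 0) => K.col q d r
  | (Hub.y q _ _, l + 1) => skip (K.m q) l

/-- The class which is missing at a hub. -/
def missN : Hub → Option ℕ
  | Hub.c => none
  | Hub.z _ => none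
  | Hub.w _ => some 0
  | Hub.y q _ _ => some (K.m q)

/-- The distance from the missing class. -/
def DD : Hub → ℕ
  | Hub.c => 2
  | Hub.z _ => 2
  | Hub.w _ => 2
  | Hub.y _ d _ => d + 2

theorem two_le_DD (h : Hub) : 2 ≤ DD h := by
  cases h <;> simp [DD]

theorem q_lt {q d r : ℕ} (h : HV P (Hub.y q d r)) : q < P.B * P.B := by
  by_contra hq
  have h1 := P.hNq q d (Nat.le_of_not_lt hq)
  have h2 : r < P.N q d := h
  omega

theorem colN_le {x : Hub × ℕ} (hx : okV P x) : colN K x ≤ P.B := by
  obtain ⟨h, l⟩ := x
  obtain ⟨h1, h2⟩ := hx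
  cases h with
  | c =>
    cases l with
    | zero => exact Nat.zero_le _
    | succ l => exact Nat.le_of_succ_le_succ h2
  | z a =>
    cases l with
    | zero => exact h1
    | succ l => exact Nat.le_of_succ_le_succ h2
  | w b =>
    cases l with
    | zero => exact h1
    | succ l => exact skip_le h2
  | y q d r =>
    cases l with
    | zero => exact (K.hc q d r h1).1
    | succ l => exact skip_le h2

/-- The partition. -/
def ff (x : VT P) : Fin (P.B + 1) := ⟨colN K x.1, Nat.lt_succ_of_le (colN_le K x.2)⟩

theorem miss_ne {h : Hub} (hh : HV P h) : missN K h ≠ some (colN K (h, 0)) := by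
  cases h with
  | c => simp [missN]
  | z a => simp [missN]
  | w b => simp [missN, colN]
  | y q d r =>
    simp only [missN, colN, ne_eq, Option.some.injEq]
    exact (K.hc q d r hh).2.symm

theorem miss_ne_leaf {h : Hub} (l : ℕ) : missN K h ≠ some (colN K (h, l + 1)) := by
  cases h with
  | c => simp [missN]
  | z a => simp [missN]
  | w b =>
    simp only [missN, colN, ne_eq, Option.some.injEq]
    exact (skip_ne 0 l).symm
  | y q d r =>
    simp only [missN, colN, ne_eq, Option.some.injEq]
    exact (skip_ne _ l).symm

theorem exists_leaf {h : Hub} (hh : HV P h) {i : ℕ} (hi : i ≤ P.B) (hm : missN K h ≠ some i) :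
    ∃ l, l < lam P h ∧ colN K (h, l + 1) = i := by
  cases h with
  | c => exact ⟨i, Nat.lt_succ_of_le hi, rfl⟩
  | z a => exact ⟨i, Nat.lt_succ_of_le hi, rfl⟩
  | w b =>
    have h0 : i ≠ 0 := fun e => hm (by rw [e]; rfl)
    exact ⟨unskip 0 i, unskip_lt h0 hi (Nat.zero_le _), skip_unskip h0⟩
  | y q d r =>
    have h0 : i ≠ K.m q := fun e => hm (by rw [e]; rfl)
    exact ⟨unskip (K.m q) i, unskip_lt h0 hi (K.hm q (q_lt hh)).2, skip_unskip h0⟩

theorem leaf_inj {h : Hub} {l l' : ℕ} (e : colN K (h, l + 1) = colN K (h, l' + 1)) : l = l' := by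
  cases h with
  | c => exact e
  | z a => exact e
  | w b => exact skip_inj e
  | y q d r => exact skip_inj e

/-- The distances of a hub from the classes. -/
def RR (h : Hub) (i : ℕ) : ℕ :=
  if i = colN K (h, 0) then 0 else if missN K h = some i then DD h else 1

theorem ff_surj : Function.Surjective (ff K) := by
  intro j
  refine ⟨lf P Hub.c trivial j j.2, ?_⟩
  exact Fin.ext rfl

theorem clsDist_hub {h : Hub} (hh : HV P h) (i : Fin (P.B + 1)) :
    clsDist (TG P) (ff K) (hb P h hh) i = RR K h i := by
  unfold RR
  split_ifs with h1 h2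
  · rw [clsDist_eq_zero (conn P) (ff_surj K i)]
    exact Fin.ext h1.symm
  · cases h with
    | c => simp [missN] at h2
    | z a => simp [missN] at h2
    | w b =>
      have hi : (i : ℕ) = 0 := by simpa [missN] using h2.symm
      apply le_antisymm
      · have h3 : ff K (lf P (Hub.z 0) P.hB 0 (Nat.succ_pos _)) = i := Fin.ext (by rw [hi]; rfl)
        refine (clsDist_le h3).trans ?_
        have h4 := (conn P).dist_triangle (u := hb P (Hub.w b) hh) (v := hb P (Hub.z 0) P.hB)
          (w := lf P (Hub.z 0) P.hB 0 (Nat.succ_pos _))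
        have h5 := SimpleGraph.dist_eq_one_iff_adj.2 (adj_w P hh)
        have h6 := SimpleGraph.dist_eq_one_iff_adj.2
          (lf_adj P (h := Hub.z 0) (hh := P.hB) (j := 0) (hj := Nat.succ_pos _)).symm
        have h7 : DD (Hub.w b) = 2 := rfl
        omega
      · refine le_clsDist (ff_surj K i) fun s hs => ?_
        have h3 := lip (conn P) (phiW_lip P) (hb P (Hub.w b) hh) s
        have h4 : phiW (hb P (Hub.w b) hh).1 = 2 := rfl
        have h5 : colN K s.1 = 0 := by rw [← hi, ← hs]; rfl
        have h6 : phiW s.1 = 0 := by
          obtain ⟨⟨h', l⟩, hs1, hs2⟩ := s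
          cases l with
          | zero =>
            cases h' with
            | c => rfl
            | z a =>
              simp [colN] at h5
            | w b => simp [colN] at h5
            | y q' d' r' => rfl
          | succ l =>
            cases h' with
            | c => rfl
            | z a => cases a <;> rfl
            | w b => exact absurd h5 (skip_ne 0 l)
            | y q' d' r' => rfl
        have h7 : DD (Hub.w b) = 2 := rfl
        omega
    | y q d r =>
      have hi : (i : ℕ) = K.m q := by simpa [missN] using h2.symm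
      apply le_antisymm
      · have h3 : ff K (lf P Hub.c trivial i i.2) = i := Fin.ext rfl
        refine (clsDist_le h3).trans ?_
        have h4 := (conn P).dist_triangle (u := hb P _ hh) (v := rt P)
          (w := lf P Hub.c trivial i i.2)
        have h5 := dist_root P hh
        have h6 : (TG P).dist (rt P) (lf P Hub.c trivial i i.2) = 1 :=
          SimpleGraph.dist_eq_one_iff_adj.2
            (lf_adj P (h := Hub.c) (hh := trivial) (hj := i.2)).symm
        have h7 : DD (Hub.y q d r) = d + 2 := rfl
        omega
      · refine le_clsDist (ff_surj K i) fun s hs => ?_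
        have h3 := lip (conn P) (phiY_lip P q) (hb P _ hh) s
        have h4 : phiY q (hb P _ hh).1 = d + 2 := by simp [hb, phiY]
        have h5 : colN K s.1 = K.m q := by rw [← hi, ← hs]; rfl
        have h6 : phiY q s.1 = 0 := by
          obtain ⟨⟨h', l⟩, hs1, hs2⟩ := s
          cases l with
          | zero =>
            cases h' with
            | c =>
              have h8 := (K.hm q (q_lt hh)).1
              simp only [colN] at h5
              omega
            | z a => rfl
            | w b => rfl
            | y q' d' r' =>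
              simp only [phiY]
              rw [if_neg]
              rintro rfl
              exact (K.hc _ _ _ hs1).2 h5
          | succ l =>
            cases h' with
            | c => rfl
            | z a => rfl
            | w b => rfl
            | y q' d' r' =>
              simp only [phiY]
              rw [if_neg]
              rintro rfl
              exact skip_ne _ _ h5
        have h7 : DD (Hub.y q d r) = d + 2 := rfl
        omega
  · obtain ⟨l, hl, he⟩ := exists_leaf K hh (Nat.le_of_lt_succ i.2) h2
    apply le_antisymm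
    · have h3 : ff K (lf P h hh l hl) = i := Fin.ext he
      refine (clsDist_le h3).trans ?_
      rw [SimpleGraph.dist_eq_one_iff_adj.2 (lf_adj P).symm]
    · rcases Nat.eq_zero_or_pos (clsDist (TG P) (ff K) (hb P h hh) i) with h3 | h3
      · rw [clsDist_eq_zero (conn P) (ff_surj K i)] at h3
        exact absurd (congrArg Fin.val h3).symm h1
      · exact h3

theorem clsDist_lf {h : Hub} (hh : HV P h) {l : ℕ} (hl : l < lam P h) (i : Fin (P.B + 1)) :
    clsDist (TG P) (ff K) (lf P h hh l hl) i =
      if (i : ℕ) = colN K (h, l + 1) then 0 else RR K h i + 1 := by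
  split_ifs with h1
  · rw [clsDist_eq_zero (conn P) (ff_surj K i)]
    exact Fin.ext h1.symm
  · rw [← clsDist_hub K hh, clsDist_leaf (conn P) (fun y hy => lf_unique P hy) (lf_adj P) _
      (ff_surj K i)]
    intro e
    exact h1 (congrArg Fin.val e).symm

theorem RR_zero {h : Hub} {i : ℕ} : RR K h i = 0 ↔ i = colN K (h, 0) := by
  unfold RR
  have := two_le_DD h
  split_ifs with h1 h2
  · simp [h1]
  · simp only [h1, iff_false]; omega
  · simp [h1]

theorem RR_two {h : Hub} (hh : HV P h) {i : ℕ} : 2 ≤ RR K h i ↔ missN K h = some i := by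
  unfold RR
  have := two_le_DD h
  split_ifs with h1 h2
  · rw [h1]
    simp only [miss_ne K hh, iff_false]
    omega
  · simp only [h2, iff_true]; omega
  · simp [h2]

theorem missN_le {h : Hub} (hh : HV P h) {i : ℕ} (hi : missN K h = some i) : i ≤ P.B := by
  cases h with
  | c => simp [missN] at hi
  | z a => simp [missN] at hi
  | w b =>
    simp only [missN, Option.some.injEq] at hi
    omega
  | y q d r =>
    simp only [missN, Option.some.injEq] at hi
    rw [← hi]
    exact (K.hm q (q_lt hh)).2

theorem hub_inj {h h' : Hub} (hh : HV P h) (hh' : HV P h')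
    (he : ∀ i ≤ P.B, RR K h i = RR K h' i) : h = h' := by
  have hc : colN K (h, 0) = colN K (h', 0) := by
    have h1 := he (colN K (h, 0)) (colN_le K (x := (h, 0)) ⟨hh, Nat.zero_le _⟩)
    rw [(RR_zero K).2 rfl] at h1
    exact (RR_zero K).1 h1.symm
  have hm : missN K h = missN K h' := by
    cases h1 : missN K h with
    | some i =>
      have h2 := (RR_two K hh).2 h1
      rw [he i (missN_le K hh h1)] at h2
      exact ((RR_two K hh').1 h2).symm
    | none =>
      cases h2 : missN K h' with
      | none => rfl
      | some i =>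
        have h3 := (RR_two K hh').2 h2
        rw [← he i (missN_le K hh' h2), RR_two K hh, h1] at h3
        exact absurd h3 (by simp)
  have hD : ∀ i, missN K h = some i → DD h = DD h' := by
    intro i hi
    have h1 := he i (missN_le K hh hi)
    have h2 : RR K h i = DD h := by
      unfold RR
      rw [if_neg, if_pos hi]
      intro e
      exact miss_ne K hh (by rw [hi, e])
    have h3 : RR K h' i = DD h' := by
      unfold RR
      rw [hm] at hi
      rw [if_neg, if_pos hi]
      intro e
      exact miss_ne K hh' (by rw [hi, e])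
    omega
  cases h with
  | c =>
    cases h' with
    | c => rfl
    | z a => simp [colN] at hc
    | w b => simp [missN] at hm
    | y q d r => simp [missN] at hm
  | z a =>
    cases h' with
    | c => simp [colN] at hc
    | z a' =>
      simp only [colN, Nat.add_right_cancel_iff] at hc
      rw [hc]
    | w b => simp [missN] at hm
    | y q d r => simp [missN] at hm
  | w b =>
    cases h' with
    | c => simp [missN] at hm
    | z a => simp [missN] at hm
    | w b' =>
      simp only [colN, Nat.add_right_cancel_iff] at hc
      rw [hc]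
    | y q d r =>
      simp only [missN, Option.some.injEq] at hm
      have := (K.hm q (q_lt hh')).1
      omega
  | y q d r =>
    cases h' with
    | c => simp [missN] at hm
    | z a => simp [missN] at hm
    | w b =>
      simp only [missN, Option.some.injEq] at hm
      have := (K.hm q (q_lt hh)).1
      omega
    | y q' d' r' =>
      have h1 := hD _ rfl
      simp only [DD, Nat.add_right_cancel_iff] at h1
      subst h1
      simp only [missN, Option.some.injEq] at hm
      simp only [colN] at hc
      obtain ⟨rfl, rfl⟩ := K.hi _ _ _ _ _ hh hh' hm hc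
      rfl

theorem leaf_leaf {h h' : Hub} (hh : HV P h) (hh' : HV P h') {l l' : ℕ}
    (hl : l < lam P h) (hl' : l' < lam P h')
    (he : ∀ i, clsDist (TG P) (ff K) (lf P h hh l hl) i =
      clsDist (TG P) (ff K) (lf P h' hh' l' hl') i) :
    lf P h hh l hl = lf P h' hh' l' hl' := by
  have hc : colN K (h, l + 1) = colN K (h', l' + 1) := by
    have h1 := he (ff K (lf P h hh l hl))
    rw [clsDist_self] at h1
    have h2 := (clsDist_eq_zero (conn P) (ff_surj K _)).1 h1.symm
    exact (congrArg Fin.val h2).symm
  have h1 : ∀ i ≤ P.B, i ≠ colN K (h, l + 1) → RR K h i = RR K h' i := by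
    intro i hi hne
    have h2 := he ⟨i, Nat.lt_succ_of_le hi⟩
    rw [clsDist_lf, clsDist_lf, if_neg hne, if_neg (by rwa [← hc])] at h2
    exact Nat.add_right_cancel h2
  have h2 : RR K h (colN K (h, l + 1)) = RR K h' (colN K (h, l + 1)) := by
    have a1 : RR K h (colN K (h, l + 1)) < 2 := by
      by_contra hcon
      exact miss_ne_leaf K l ((RR_two K hh).1 (Nat.le_of_not_lt hcon))
    have a2 : RR K h' (colN K (h, l + 1)) < 2 := by
      by_contra hcon
      rw [hc] at hcon
      exact miss_ne_leaf K l' ((RR_two K hh').1 (Nat.le_of_not_lt hcon))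
    have a3 : RR K h (colN K (h, l + 1)) = 0 ↔ RR K h' (colN K (h, l + 1)) = 0 := by
      constructor
      · intro h3
        by_contra h4
        have h5 : RR K h' (colN K (h', 0)) = 0 := (RR_zero K).2 rfl
        have h6 : colN K (h', 0) ≠ colN K (h, l + 1) := by
          intro e
          rw [e] at h5
          exact h4 h5
        have h7 := h1 _ (colN_le K (x := (h', 0)) ⟨hh', Nat.zero_le _⟩) h6
        rw [h5, RR_zero] at h7
        rw [RR_zero] at h3
        exact h6 (by rw [h7, h3])
      · intro h3
        by_contra h4
        have h5 : RR K h (colN K (h, 0)) = 0 := (RR_zero K).2 rfl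
        have h6 : colN K (h, 0) ≠ colN K (h, l + 1) := by
          intro e
          rw [e] at h5
          exact h4 h5
        have h7 := h1 _ (colN_le K (x := (h, 0)) ⟨hh, Nat.zero_le _⟩) h6
        rw [h5, eq_comm, RR_zero] at h7
        rw [RR_zero] at h3
        exact h6 (by rw [h7, h3])
    omega
  have h3 : h = h' := by
    apply hub_inj K hh hh'
    intro i hi
    by_cases hne : i = colN K (h, l + 1)
    · rw [hne]; exact h2
    · exact h1 i hi hne
  subst h3
  have h4 := leaf_inj K hc
  subst h4
  rfl

theorem leaf_hub (hB : 3 ≤ P.B) {h h' : Hub} (hh : HV P h) (hh' : HV P h') {l : ℕ}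
    (hl : l < lam P h)
    (he : ∀ i, clsDist (TG P) (ff K) (lf P h hh l hl) i =
      clsDist (TG P) (ff K) (hb P h' hh') i) : False := by
  have hc : colN K (h, l + 1) = colN K (h', 0) := by
    have h1 := he (ff K (lf P h hh l hl))
    rw [clsDist_self] at h1
    have h2 := (clsDist_eq_zero (conn P) (ff_surj K _)).1 h1.symm
    exact (congrArg Fin.val h2).symm
  have h1 : ∀ i ≤ P.B, i ≠ colN K (h', 0) → i ≠ colN K (h, 0) → missN K h' = some i := by
    intro i hi hne hne'
    have h2 := he ⟨i, Nat.lt_succ_of_le hi⟩
    rw [clsDist_lf, clsDist_hub, if_neg (by rwa [hc])] at h2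
    apply (RR_two K hh').1
    simp only at h2
    have h3 : RR K h i ≠ 0 := fun e => hne' ((RR_zero K).1 e)
    omega
  have h2 : ∀ i ≤ P.B, ∀ j ≤ P.B, i ≠ colN K (h', 0) → i ≠ colN K (h, 0) →
      j ≠ colN K (h', 0) → j ≠ colN K (h, 0) → i = j := by
    intro i hi j hj a1 a2 a3 a4
    have h3 := h1 i hi a1 a2
    rw [h1 j hj a3 a4] at h3
    exact (Option.some.inj h3).symm
  generalize colN K (h', 0) = a at h2
  generalize colN K (h, 0) = b at h2
  have b01 := h2 0 (by omega) 1 (by omega)
  have b02 := h2 0 (by omega) 2 (by omega)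
  have b03 := h2 0 (by omega) 3 (by omega)
  have b12 := h2 1 (by omega) 2 (by omega)
  have b13 := h2 1 (by omega) 3 (by omega)
  have b23 := h2 2 (by omega) 3 (by omega)
  omega

/-- **Completeness.** -/
theorem complete_core (hB : 3 ≤ P.B) : Resolving (TG P) (ff K) := by
  refine ⟨ff_surj K, ?_⟩
  rintro ⟨⟨h, l⟩, hh, hl⟩ ⟨⟨h', l'⟩, hh', hl'⟩ he
  cases l with
  | zero =>
    cases l' with
    | zero =>
      have h1 : h = h' := by
        apply hub_inj K hh hh'
        intro i hi
        have h2 := he ⟨i, Nat.lt_succ_of_le hi⟩
        have h3 := clsDist_hub K hh ⟨i, Nat.lt_succ_of_le hi⟩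
        have h4 := clsDist_hub K hh' ⟨i, Nat.lt_succ_of_le hi⟩
        simp only at h3 h4
        rw [← h3, ← h4]
        exact h2
      subst h1
      rfl
    | succ l' => exact (leaf_hub K hB hh' hh hl' fun i => (he i).symm).elim
  | succ l =>
    cases l' with
    | zero => exact (leaf_hub K hB hh hh' hl he).elim
    | succ l' => exact leaf_leaf K hh hh' hl hl' he

end Pool.Agent.H442R3.PD
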