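import Pool.Agent.H671R2.ZDefs

/-!
# The partition dimension: definitions
-/

namespace Pool.Agent.H442R3.PD

open Pool.Agent.NPC Pool.Agent.NPC.R671

/-- The distance of the vertex `v` from the class `{s | f s = j}` of the partition of the vertices
given by `f`. -/
noncomputable def clsDist {V α : Type} (G : SimpleGraph V) (f : V → α) (v : V) (j : α) : ℕ :=
  sInf {d | ∃ s, f s = j ∧ G.dist v s = d}

/-- The partition of the vertices into the classes `{s | f s = j}` is resolving: the classes are
nonempty, and different vertices have different vectors of distances from the classes. -/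
def Resolving {V α : Type} (G : SimpleGraph V) (f : V → α) : Prop :=
  Function.Surjective f ∧ ∀ u v, (∀ j, clsDist G f u j = clsDist G f v j) → u = v

/-- The partition dimension: the least number of classes of a resolving partition. -/
noncomputable def partDim {V : Type} (G : SimpleGraph V) : ℕ :=
  sInf {k | ∃ f : V → Fin k, Resolving G f}

/-- PD-TREES: given (the adjacency matrix of) a tree and a positive integer `k`, is the partition
dimension of the tree at most `k`? -/
def PDTrees (p : List (List Bool) × ℕ) : Prop :=
  ∃ (n : ℕ) (G : SimpleGraph (Fin n)), adjMatrix G = p.1 ∧ G.IsTree ∧ 0 < p.2 ∧ partDim G ≤ p.2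

end Pool.Agent.H442R3.PD
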