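import Pool.Agent.H442R3.PD.Inst
import Pool.Agent.H671R2.PolyAuto

/-!
# The partition dimension: the reduction as a polynomial-time function
-/

namespace Pool.Agent.H442R3.PD

open Pool.Agent.NPC Pool.Agent.NPC.R671 Pool.Agent.H692R2

/-- Names of vertices. -/
abbrev Nm : Type := ℕ × ℕ × ℕ × ℕ × ℕ

/-- The name of a vertex. -/
def code : Hub × ℕ → Nm
  | (Hub.c, l) => (0, 0, 0, 0, l)
  | (Hub.z a, l) => (1, a, 0, 0, l)
  | (Hub.w b, l) => (2, b, 0, 0, l)
  | (Hub.y q d r, l) => (3, q, d, r, l)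

theorem code_inj {x y : Hub × ℕ} (h : code x = code y) : x = y := by
  obtain ⟨h1, l⟩ := x
  obtain ⟨h2, l'⟩ := y
  cases h1 <;> cases h2 <;> simp only [code, Prod.mk.injEq] at h <;> simp_all

/-- The condition on names. -/
def okC (E : List (ℕ × ℕ)) (x : Nm) : Bool :=
  decide (x.1 = 0 ∧ x.2.1 = 0 ∧ x.2.2.1 = 0 ∧ x.2.2.2.1 = 0 ∧ x.2.2.2.2 < BB E + 2) ||
  (decide (x.1 = 1 ∧ x.2.1 < BB E ∧ x.2.2.1 = 0 ∧ x.2.2.2.1 = 0 ∧ x.2.2.2.2 < BB E + 2) ||
  (decide (x.1 = 2 ∧ x.2.1 < BB E ∧ x.2.2.1 = 0 ∧ x.2.2.2.1 = 0 ∧ x.2.2.2.2 < BB E + 1) ||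
  decide (x.1 = 3 ∧ x.2.2.2.1 < NN E x.2.1 x.2.2.1 ∧ x.2.2.2.2 < BB E + 1)))

/-- All names. -/
def names (E : List (ℕ × ℕ)) : List Nm :=
  (List.range 4 ×ˢ (List.range (BB E * BB E) ×ˢ (List.range (E.length + 2) ×ˢ
    (List.range (BB E + 2) ×ˢ List.range (BB E + 2))))).filter (okC E)

/-- The name of the parent. -/
def parC (x : Nm) : Nm :=
  if x.2.2.2.2 = 0 then
    (if x.1 = 2 then (1, 0, 0, 0, 0) else
      if x.1 = 3 ∧ 0 < x.2.2.1 then (3, x.2.1, x.2.2.1 - 1, 0, 0) else (0, 0, 0, 0, 0))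
  else (x.1, x.2.1, x.2.2.1, x.2.2.2.1, 0)

theorem code_par (x : Hub × ℕ) : code (parN x) = parC (code x) := by
  obtain ⟨h, l⟩ := x
  cases l with
  | succ l => cases h <;> simp [parN, code, parC]
  | zero =>
    cases h with
    | c => simp [parN, code, parC]
    | z a => simp [parN, code, parC]
    | w b => simp [parN, code, parC]
    | y q d r => cases d <;> simp [parN, code, parC]

/-- Adjacency of names. -/
def adC (x y : Nm) : Bool :=
  decide (x ≠ y) && (decide (x ≠ (0, 0, 0, 0, 0) ∧ y = parC x) ||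
    decide (y ≠ (0, 0, 0, 0, 0) ∧ x = parC y))

theorem adC_symm (x y : Nm) : adC x y = adC y x := by
  unfold adC
  rw [Bool.or_comm]
  congr 1
  exact decide_eq_decide.2 ne_comm

theorem adC_irrefl (x : Nm) : adC x x = false := by
  unfold adC
  simp

theorem NN_le (E : List (ℕ × ℕ)) {q d r : ℕ} (h : r < NN E q d) :
    q < BB E * BB E ∧ d < E.length + 2 ∧ r < BB E + 2 := by
  have hB : NI E + 2 < BB E := by unfold BB; omega
  unfold NN at h
  split_ifs at h <;> omega

theorem okC_code {E : List (ℕ × ℕ)} {x : Hub × ℕ} : okC E (code x) = true ↔ okV (PP E) x := by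
  obtain ⟨h, l⟩ := x
  cases h with
  | c => simp [okC, code, okV, HV, lam, PP_B, Nat.lt_succ_iff]
  | z a => simp [okC, code, okV, HV, lam, PP_B, Nat.lt_succ_iff]
  | w b => simp [okC, code, okV, HV, lam, PP_B, Nat.lt_succ_iff]
  | y q d r => simp [okC, code, okV, HV, lam, PP_B, PP_N, Nat.lt_succ_iff]

theorem okC_bound {E : List (ℕ × ℕ)} {x : Nm} (h : okC E x = true) :
    x.1 < 4 ∧ x.2.1 < BB E * BB E ∧ x.2.2.1 < E.length + 2 ∧ x.2.2.2.1 < BB E + 2 ∧
      x.2.2.2.2 < BB E + 2 := by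
  have hB : 0 < BB E := by unfold BB; omega
  have hBB : BB E ≤ BB E * BB E := Nat.le_mul_of_pos_left _ hB
  simp only [okC, Bool.or_eq_true, decide_eq_true_eq] at h
  rcases h with h | h | h | h
  · omega
  · omega
  · omega
  · have := NN_le E h.2.1
    omega

theorem okC_exists {E : List (ℕ × ℕ)} {x : Nm} (h : okC E x = true) : ∃ y, code y = x := by
  obtain ⟨k, q, d, r, l⟩ := x
  simp only [okC, Bool.or_eq_true, decide_eq_true_eq] at h
  rcases h with h | h | h | h
  · obtain ⟨rfl, rfl, rfl, rfl, -⟩ := h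
    exact ⟨(Hub.c, l), rfl⟩
  · obtain ⟨rfl, -, rfl, rfl, -⟩ := h
    exact ⟨(Hub.z q, l), rfl⟩
  · obtain ⟨rfl, -, rfl, rfl, -⟩ := h
    exact ⟨(Hub.w q, l), rfl⟩
  · obtain ⟨rfl, -, -⟩ := h
    exact ⟨(Hub.y q d r, l), rfl⟩

theorem mem_names {E : List (ℕ × ℕ)} {x : Nm} :
    x ∈ names E ↔ ∃ v : VT (PP E), code v.1 = x := by
  unfold names
  rw [List.mem_filter]
  constructor
  · rintro ⟨-, h⟩
    obtain ⟨y, rfl⟩ := okC_exists h
    exact ⟨⟨y, okC_code.1 h⟩, rfl⟩
  · rintro ⟨v, rfl⟩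
    have h1 := okC_code.2 v.2
    have h2 := okC_bound h1
    refine ⟨?_, h1⟩
    generalize code v.1 = x at h2
    obtain ⟨k, q, d, r, l⟩ := x
    simp only [List.mem_product, List.mem_range]
    exact h2

theorem names_nodup (E : List (ℕ × ℕ)) : (names E).Nodup := by
  unfold names
  apply List.Nodup.filter
  exact (List.nodup_range).product ((List.nodup_range).product ((List.nodup_range).product
    ((List.nodup_range).product (List.nodup_range))))

/-- The graph on names. -/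
abbrev nGraph (E : List (ℕ × ℕ)) : SimpleGraph (Fin (names E).length) :=
  listGraph (names E) adC adC_symm adC_irrefl

theorem exists_iso (E : List (ℕ × ℕ)) : Nonempty (nGraph E ≃g TG (PP E)) := by
  obtain ⟨e, he⟩ := exists_equiv (names E) (names_nodup E) (fun v : VT (PP E) => code v.1)
    (fun v w h => Subtype.ext (code_inj h)) (fun z => mem_names)
  refine ⟨⟨e, ?_⟩⟩
  intro i j
  have h1 : (nGraph E).Adj i j ↔ adC (names E)[i] (names E)[j] = true := Iff.rfl
  rw [h1, ← he i, ← he j, adj_iff]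
  generalize e i = x
  generalize e j = y
  have hr : ∀ v : VT (PP E), code v.1 ≠ (0, 0, 0, 0, 0) ↔ v ≠ rt (PP E) := by
    intro v
    rw [not_iff_not]
    constructor
    · intro h
      exact Subtype.ext (code_inj (y := (Hub.c, 0)) h)
    · intro h
      rw [h]
      rfl
  have hp : ∀ v w : VT (PP E), code w.1 = parC (code v.1) ↔ w = pr (PP E) v := by
    intro v w
    rw [← code_par]
    constructor
    · intro h
      exact Subtype.ext (code_inj h)
    · intro h
      rw [h]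
      rfl
  simp only [adC, Bool.and_eq_true, Bool.or_eq_true, decide_eq_true_eq, hr, hp]
  constructor
  · intro h
    refine ⟨?_, h⟩
    intro hxy
    have hxy' : x = y := Subtype.ext (code_inj hxy)
    exact ((adj_iff (PP E)).2 h).ne hxy'
  · exact fun h => h.2

instance finVT (E : List (ℕ × ℕ)) : Finite (VT (PP E)) := by
  obtain ⟨e⟩ := exists_iso E
  exact Finite.of_equiv _ e.toEquiv

/-- The reduction. -/
def redPD (E : List (ℕ × ℕ)) : List (List Bool) × ℕ :=
  ((names E).map (fun u => (names E).map (fun w => adC u w)), BB E + 1)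

theorem redPD_fst (E : List (ℕ × ℕ)) : (redPD E).1 = adjMatrix (nGraph E) :=
  (adjMatrix_listGraph _ _ _ _).symm

theorem nGraph_isTree (E : List (ℕ × ℕ)) : (nGraph E).IsTree := by
  obtain ⟨e⟩ := exists_iso E
  have : Fintype (VT (PP E)) := Fintype.ofFinite _
  exact e.isTree_iff.2 (isTree (PP E))

theorem redPD_iff {E : List (ℕ × ℕ)}
    (hE : ∀ e ∈ E, e.1 ≠ e.2 ∧ e.1 < 2 * E.length ∧ e.2 < 2 * E.length) :
    Col 3 E ↔ PDTrees (redPD E) := by
  obtain ⟨e⟩ := exists_iso E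
  constructor
  · intro h
    refine ⟨_, nGraph E, (redPD_fst E).symm, nGraph_isTree E, Nat.succ_pos _, ?_⟩
    rw [partDim_iso e]
    exact (partDim_tree hE).2 h
  · rintro ⟨n, G, h1, -, -, h2⟩
    rw [redPD_fst] at h1
    have hn : n = (names E).length := by
      have := congrArg List.length h1
      simpa [adjMatrix] using this
    subst hn
    rw [adjMatrix_inj h1, partDim_iso e] at h2
    exact (partDim_tree hE).1 h2

end Pool.Agent.H442R3.PD
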