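import Pool.Agent.H442R3.PD.Defs

/-!
# The partition dimension: general lemmas
-/

namespace Pool.Agent.H442R3.PD

variable {V α : Type} {G : SimpleGraph V} {f : V → α}

theorem clsDist_le {v s : V} {j : α} (hs : f s = j) : clsDist G f v j ≤ G.dist v s :=
  Nat.sInf_le ⟨s, hs, rfl⟩

theorem exists_clsDist (v : V) {j : α} (h : ∃ s, f s = j) :
    ∃ s, f s = j ∧ G.dist v s = clsDist G f v j := by
  obtain ⟨s, hs⟩ := h
  exact Nat.sInf_mem (s := {d | ∃ s, f s = j ∧ G.dist v s = d}) ⟨G.dist v s, s, hs, rfl⟩

theorem le_clsDist {v : V} {j : α} {d : ℕ} (h : ∃ s, f s = j)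
    (hd : ∀ s, f s = j → d ≤ G.dist v s) : d ≤ clsDist G f v j := by
  obtain ⟨s, hs, he⟩ := exists_clsDist (G := G) v h
  rw [← he]
  exact hd s hs

theorem clsDist_eq_zero (hG : G.Connected) {v : V} {j : α} (h : ∃ s, f s = j) :
    clsDist G f v j = 0 ↔ f v = j := by
  constructor
  · intro h0
    obtain ⟨s, hs, he⟩ := exists_clsDist (G := G) v h
    rw [h0] at he
    have : v = s := (hG.dist_eq_zero_iff).1 he
    rw [this]; exact hs
  · intro h0
    have := clsDist_le (G := G) (v := v) h0
    simpa using this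

theorem clsDist_self {v : V} : clsDist G f v (f v) = 0 := by
  have := clsDist_le (G := G) (v := v) (f := f) (s := v) rfl
  simpa using this

/-- The distances from a leaf. -/
theorem dist_leaf (hG : G.Connected) {l h : V} (hl : ∀ y, G.Adj l y → y = h) (ha : G.Adj l h)
    {s : V} (hs : s ≠ l) : G.dist l s = G.dist h s + 1 := by
  apply le_antisymm
  · have h1 := hG.dist_triangle (u := l) (v := h) (w := s)
    have h2 : G.dist l h = 1 := SimpleGraph.dist_eq_one_iff_adj.2 ha
    omega
  · obtain ⟨p, hp⟩ := hG.exists_walk_length_eq_dist l s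
    cases p with
    | nil => exact absurd rfl hs
    | cons hadj q =>
      have e := hl _ hadj
      subst e
      rw [← hp, SimpleGraph.Walk.length_cons]
      exact Nat.succ_le_succ (SimpleGraph.dist_le q)

theorem clsDist_leaf (hG : G.Connected) {l h : V} (hl : ∀ y, G.Adj l y → y = h) (ha : G.Adj l h)
    {j : α} (hj : f l ≠ j) (hne : ∃ s, f s = j) :
    clsDist G f l j = clsDist G f h j + 1 := by
  apply le_antisymm
  · obtain ⟨s, hs, he⟩ := exists_clsDist (G := G) h hne
    have h1 : s ≠ l := fun e => hj (by rw [← e]; exact hs)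
    rw [← he, ← dist_leaf hG hl ha h1]
    exact clsDist_le hs
  · refine le_clsDist hne fun s hs => ?_
    have h1 : s ≠ l := fun e => hj (by rw [← e]; exact hs)
    rw [dist_leaf hG hl ha h1]
    exact Nat.succ_le_succ (clsDist_le hs)

/-- Two leaves at the same vertex are in different classes. -/
theorem leaves_ne (hG : G.Connected) (hf : Resolving G f) {l l' h : V}
    (hl : ∀ y, G.Adj l y → y = h) (ha : G.Adj l h) (hl' : ∀ y, G.Adj l' y → y = h)
    (ha' : G.Adj l' h) (he : f l = f l') : l = l' := by
  apply hf.2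
  intro j
  by_cases hj : f l = j
  · have h1 : clsDist G f l j = 0 := by rw [← hj]; exact clsDist_self
    have h2 : clsDist G f l' j = 0 := by rw [← hj, he]; exact clsDist_self
    rw [h1, h2]
  · rw [clsDist_leaf hG hl ha hj (hf.1 j), clsDist_leaf hG hl' ha' (by rwa [← he]) (hf.1 j)]

theorem lip (hG : G.Connected) {φ : V → ℕ} (hφ : ∀ a b, G.Adj a b → φ a ≤ φ b + 1) (a b : V) :
    φ a ≤ φ b + G.dist a b := by
  obtain ⟨p, hp⟩ := hG.exists_walk_length_eq_dist a b
  rw [← hp]
  clear hp
  induction p with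
  | nil => simp
  | @cons a b c hab p ih =>
    have := hφ _ _ hab
    rw [SimpleGraph.Walk.length_cons]
    omega

theorem dist_iso {W : Type} {H : SimpleGraph W} (e : G ≃g H) (u v : V) :
    H.dist (e u) (e v) = G.dist u v := by
  have key : ∀ {V W : Type} {G : SimpleGraph V} {H : SimpleGraph W} (e : G ≃g H) (u v : V),
      G.Reachable u v → H.dist (e u) (e v) ≤ G.dist u v := by
    intro V W G H e u v hr
    obtain ⟨p, hp⟩ := hr.exists_walk_length_eq_dist
    have h1 := SimpleGraph.dist_le (p.map e.toHom)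
    rw [SimpleGraph.Walk.length_map, hp] at h1
    exact h1
  by_cases hr : G.Reachable u v
  · apply le_antisymm (key e u v hr)
    have hr' : H.Reachable (e u) (e v) := hr.map e.toHom
    have h1 := key e.symm (e u) (e v) hr'
    simpa using h1
  · have hr' : ¬ H.Reachable (e u) (e v) := by
      intro h
      apply hr
      have h1 := h.map e.symm.toHom
      simpa using h1
    rw [SimpleGraph.dist_eq_zero_of_not_reachable hr, SimpleGraph.dist_eq_zero_of_not_reachable hr']

theorem Resolving.iso {W : Type} {H : SimpleGraph W} (e : G ≃g H) {f : V → α}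
    (hf : Resolving G f) : Resolving H (fun w => f (e.symm w)) := by
  have key : ∀ w j, clsDist H (fun w => f (e.symm w)) w j = clsDist G f (e.symm w) j := by
    intro w j
    unfold clsDist
    congr 1
    ext d
    constructor
    · rintro ⟨s, hs, hd⟩
      refine ⟨e.symm s, hs, ?_⟩
      rw [← hd]
      exact dist_iso e.symm w s
    · rintro ⟨s, hs, hd⟩
      refine ⟨e s, by simpa using hs, ?_⟩
      rw [← hd, ← dist_iso e (e.symm w) s]
      simp
  refine ⟨fun j => ?_, fun u v h => ?_⟩
  · obtain ⟨s, hs⟩ := hf.1 j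
    exact ⟨e s, by simpa using hs⟩
  · have h1 := hf.2 (e.symm u) (e.symm v) (fun j => by rw [← key, ← key]; exact h j)
    exact e.symm.injective h1

theorem partDim_iso {W : Type} {H : SimpleGraph W} (e : G ≃g H) : partDim G = partDim H := by
  unfold partDim
  congr 1
  ext k
  constructor
  · rintro ⟨f, hf⟩
    exact ⟨_, hf.iso e⟩
  · rintro ⟨f, hf⟩
    exact ⟨_, hf.iso e.symm⟩

/-- The partition into single vertices is resolving. -/
theorem resolving_id (hG : G.Connected) : Resolving G (fun v : V => v) := by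
  refine ⟨fun v => ⟨v, rfl⟩, fun u v h => ?_⟩
  have h1 := h u
  have h2 : clsDist G (fun v : V => v) u u = 0 := clsDist_self (f := fun v : V => v)
  rw [h2] at h1
  exact ((clsDist_eq_zero hG ⟨u, rfl⟩).1 h1.symm).symm

theorem Resolving.congr_equiv {β : Type} (e : α ≃ β) (hf : Resolving G f) :
    Resolving G (fun v => e (f v)) := by
  have key : ∀ v j, clsDist G (fun v => e (f v)) v j = clsDist G f v (e.symm j) := by
    intro v j
    unfold clsDist
    congr 1
    ext d
    constructor
    · rintro ⟨s, hs, hd⟩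
      exact ⟨s, by rw [← hs]; simp, hd⟩
    · rintro ⟨s, hs, hd⟩
      exact ⟨s, by simp [hs], hd⟩
  refine ⟨fun j => ?_, fun u v h => hf.2 u v fun j => ?_⟩
  · obtain ⟨s, hs⟩ := hf.1 (e.symm j)
    exact ⟨s, by simp [hs]⟩
  · have := h (e j)
    rw [key, key] at this
    simpa using this

theorem partDim_le_iff [Finite V] (hG : G.Connected) {k : ℕ} :
    partDim G ≤ k ↔ ∃ k' ≤ k, ∃ f : V → Fin k', Resolving G f := by
  constructor
  · intro h
    have hne : {k | ∃ f : V → Fin k, Resolving G f}.Nonempty := by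
      obtain ⟨n, ⟨e⟩⟩ := Finite.exists_equiv_fin V
      exact ⟨n, _, (resolving_id hG).congr_equiv e⟩
    exact ⟨partDim G, h, Nat.sInf_mem hne⟩
  · rintro ⟨k', hk', f, hf⟩
    exact le_trans (Nat.sInf_le ⟨f, hf⟩) hk'

/-- An injection from `B` to `B + 1` elements misses exactly one element. -/
theorem exists_miss {B : ℕ} (g : Fin B → Fin (B + 1)) (hg : Function.Injective g) :
    ∃ m, (∀ j, g j ≠ m) ∧ ∀ i, i ≠ m → ∃ j, g j = i := by
  classical
  have h1 : (Finset.univ.image g).card = B := by
    rw [Finset.card_image_of_injective _ hg, Finset.card_univ, Fintype.card_fin]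
  have h2 : ((Finset.univ.image g)ᶜ : Finset (Fin (B + 1))).card = 1 := by
    rw [Finset.card_compl, h1, Fintype.card_fin]
    omega
  obtain ⟨m, hm⟩ := Finset.card_eq_one.1 h2
  refine ⟨m, fun j hj => ?_, fun i hi => ?_⟩
  · have h3 : m ∈ (Finset.univ.image g)ᶜ := by rw [hm]; simp
    rw [Finset.mem_compl] at h3
    exact h3 (by rw [← hj]; exact Finset.mem_image_of_mem g (Finset.mem_univ j))
  · by_contra hcon
    push Not at hcon
    have h3 : i ∈ (Finset.univ.image g)ᶜ := by
      rw [Finset.mem_compl, Finset.mem_image]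
      rintro ⟨j, -, hj⟩
      exact hcon j hj
    rw [hm, Finset.mem_singleton] at h3
    exact hi h3

end Pool.Agent.H442R3.PD
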