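import Pool.Agent.H442R3.PD.Pol
import Pool.Agent.H673R2.HardOn
import Pool.Agent.NPC.Sat2

/-!
# The partition dimension of trees is NP-hard to compute
-/

namespace Pool.Agent.H442R3.PD

open Pool.Agent.NPC Pool.Agent.NPC.R671 Pool.Agent.H692R2

/-- Instances of 3-colourability with small names. -/
def PrB (E : List (ℕ × ℕ)) : Prop :=
  ∀ e ∈ E, e.1 ≠ e.2 ∧ e.1 < 2 * E.length ∧ e.2 < 2 * E.length

theorem length_satCol (φ : List (Lit ℕ × Lit ℕ × Lit ℕ)) :
    (satCol φ).length = 3 + 19 * φ.length := by
  have h : ∀ l : List ((Lit ℕ × Lit ℕ × Lit ℕ) × ℕ), (l.flatMap (fun p =>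
      varE p.1.1.2 ++ (varE p.1.2.1.2 ++ (varE p.1.2.2.2 ++ clauseE p.1 p.2)))).length =
        19 * l.length := by
    intro l
    induction l with
    | nil => rfl
    | cons a l ih =>
      rw [List.flatMap_cons, List.length_append, ih]
      simp [varE, clauseE]
      omega
  unfold satCol
  rw [List.length_append, h, List.length_zipIdx]
  rfl

theorem hardPr_colB : HardPr PrB (Col 3) := by
  refine hardPr_SAT3b.trans satCol_poly ?_ (fun φ _ => satCol_correct φ)
  rintro φ ⟨_, hb, hne⟩ e he
  refine ⟨satCol_loopless φ e he, ?_⟩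
  rw [length_satCol]
  have hlen : 0 < φ.length := List.length_pos_iff.2 hne
  unfold satCol at he
  rw [List.mem_append] at he
  rcases he with he | he
  · simp only [List.mem_cons, List.not_mem_nil, or_false] at he
    rcases he with rfl | rfl | rfl <;> simp only <;> omega
  · rw [List.mem_flatMap] at he
    obtain ⟨⟨d, k⟩, hd, he⟩ := he
    have hk : k < φ.length := by
      have := List.mem_zipIdx hd
      omega
    have hd' : d ∈ φ := by
      have := List.mem_zipIdx hd
      rw [this.2.2]
      exact List.getElem_mem _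
    obtain ⟨b1, b2, b3⟩ := hb d hd'
    have l1 : ∀ l : Lit ℕ, litv l ≤ 8 * l.2 + 2 := by
      intro l
      unfold litv
      split_ifs <;> omega
    have c1 := l1 d.1
    have c2 := l1 d.2.1
    have c3 := l1 d.2.2
    simp only [List.mem_append, varE, clauseE, List.mem_cons, List.not_mem_nil, or_false] at he
    rcases he with (rfl | rfl | rfl) | (rfl | rfl | rfl) | (rfl | rfl | rfl) |
      (rfl | rfl | rfl | rfl | rfl | rfl | rfl | rfl | rfl | rfl) <;> simp only <;> omega

/-- Instances of PD-TREES: (the adjacency matrix of) a tree and a positive integer. -/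
def TreeInst (p : List (List Bool) × ℕ) : Prop :=
  0 < p.2 ∧ ∃ (n : ℕ) (G : SimpleGraph (Fin n)), adjMatrix G = p.1 ∧ G.IsTree

theorem hardOn_PD : H673R2.NPHardOn TreeInst PDTrees :=
  H673R2.npHardOn_of (Pr := PrB) (P := Col 3) (f := redPD) hardPr_colB poly_redPD
    (fun E _ => ⟨Nat.succ_pos _, _, nGraph E, (redPD_fst E).symm, nGraph_isTree E⟩)
    (fun _ hE => redPD_iff hE)

end Pool.Agent.H442R3.PD
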