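import Pool.Agent.H442R3.PD.Tree

/-!
# The partition dimension: soundness of the reduction
-/

namespace Pool.Agent.H442R3.PD

variable {P : Par}

theorem leaves_inj {k : ℕ} {f : VT P → Fin k} (hf : Resolving (TG P) f) {h : Hub} (hh : HV P h) :
    Function.Injective (fun j : Fin (lam P h) => f (lf P h hh j j.2)) := by
  intro i j hij
  have h1 := leaves_ne (conn P) hf (fun y hy => lf_unique P hy) (lf_adj P)
    (fun y hy => lf_unique P hy) (lf_adj P) hij
  have h2 := congrArg (fun x : VT P => x.1.2) h1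
  simp only [lf, Nat.add_right_cancel_iff] at h2
  exact Fin.ext h2

/-- The number of classes is at least `B + 1`. -/
theorem k_ge {k : ℕ} {f : VT P → Fin k} (hf : Resolving (TG P) f) : P.B + 1 ≤ k := by
  have h := Fintype.card_le_of_injective _ (leaves_inj hf (h := Hub.c) trivial)
  rw [Fintype.card_fin, Fintype.card_fin] at h
  exact h

variable {f : VT P → Fin (P.B + 1)}

/-- The vertex `v` has distance `0` from the class `c`, distance `2` from the class `m` (if `m` is
not `c`), and distance `1` from all other classes. -/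
def Near (f : VT P → Fin (P.B + 1)) (v : VT P) (c m : Fin (P.B + 1)) : Prop :=
  f v = c ∧ (∀ i, i ≠ c → i ≠ m → clsDist (TG P) f v i = 1) ∧
    (m ≠ c → clsDist (TG P) f v m = 2)

theorem near_unique (hf : Resolving (TG P) f) {v v' : VT P} {c m : Fin (P.B + 1)}
    (h : Near f v c m) (h' : Near f v' c m) : v = v' := by
  apply hf.2
  intro i
  by_cases hc : i = c
  · subst hc
    have e1 : clsDist (TG P) f v i = 0 := by rw [← h.1]; exact clsDist_self
    have e2 : clsDist (TG P) f v' i = 0 := by rw [← h'.1]; exact clsDist_self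
    rw [e1, e2]
  · by_cases hm : i = m
    · subst hm
      rw [h.2.2 hc, h'.2.2 hc]
    · rw [h.2.1 i hc hm, h'.2.1 i hc hm]

theorem one_le (hf : Resolving (TG P) f) {v : VT P} {i : Fin (P.B + 1)} (hi : i ≠ f v) :
    1 ≤ clsDist (TG P) f v i := by
  rcases Nat.eq_zero_or_pos (clsDist (TG P) f v i) with h | h
  · exact absurd ((clsDist_eq_zero (conn P) (hf.1 i)).1 h).symm hi
  · exact h

theorem near_full (hf : Resolving (TG P) f) {v : VT P}
    (h : ∀ i, i ≠ f v → clsDist (TG P) f v i ≤ 1) : Near f v (f v) (f v) :=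
  ⟨rfl, fun i hi _ => le_antisymm (h i hi) (one_le hf hi), fun h => absurd rfl h⟩

theorem near_of (hf : Resolving (TG P) f) {v : VT P} (m : Fin (P.B + 1))
    (h1 : ∀ i, i ≠ m → clsDist (TG P) f v i ≤ 1) (h2 : clsDist (TG P) f v m ≤ 2) :
    ∃ m', Near f v (f v) m' := by
  by_cases h : clsDist (TG P) f v m ≤ 1
  · refine ⟨f v, near_full hf fun i _ => ?_⟩
    by_cases hi : i = m
    · rw [hi]; exact h
    · exact h1 i hi
  · refine ⟨m, rfl, fun i hi hm => le_antisymm (h1 i hm) (one_le hf hi), fun _ => by omega⟩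

theorem leaf_le {h : Hub} {hh : HV P h} {j : ℕ} {hj : j < lam P h} :
    clsDist (TG P) f (hb P h hh) (f (lf P h hh j hj)) ≤ 1 := by
  refine (clsDist_le rfl).trans ?_
  rw [SimpleGraph.dist_eq_one_iff_adj.2 (lf_adj P).symm]

/-- A vertex adjacent to a hub which has a leaf in the class `i` has distance at most two from this
class. -/
theorem nb_le {v : VT P} {h : Hub} {hh : HV P h} {j : ℕ} {hj : j < lam P h}
    (ha : (TG P).Adj v (hb P h hh)) : clsDist (TG P) f v (f (lf P h hh j hj)) ≤ 2 := by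
  refine (clsDist_le rfl).trans ?_
  have h1 := (conn P).dist_triangle (u := v) (v := hb P h hh) (w := lf P h hh j hj)
  have h2 := SimpleGraph.dist_eq_one_iff_adj.2 (lf_adj P (h := h) (hh := hh) (hj := hj)).symm
  have h3 := SimpleGraph.dist_eq_one_iff_adj.2 ha
  omega

theorem full_leaves (hf : Resolving (TG P) f) {h : Hub} (hh : HV P h) (hl : lam P h = P.B + 1)
    (i : Fin (P.B + 1)) : ∃ j, ∃ hj : j < lam P h, f (lf P h hh j hj) = i := by
  have h1 := leaves_inj hf hh
  have h2 : Function.Bijective (fun j : Fin (lam P h) => f (lf P h hh j j.2)) :=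
    (Fintype.bijective_iff_injective_and_card _).2 ⟨h1, by simp [hl]⟩
  obtain ⟨j, hj⟩ := h2.2 i
  exact ⟨j, j.2, hj⟩

theorem miss_leaves (hf : Resolving (TG P) f) {h : Hub} (hh : HV P h) (hl : lam P h = P.B) :
    ∃ m, (∀ j (hj : j < lam P h), f (lf P h hh j hj) ≠ m) ∧
      ∀ i, i ≠ m → ∃ j, ∃ hj : j < lam P h, f (lf P h hh j hj) = i := by
  have h1 := leaves_inj hf hh
  obtain ⟨m, h2, h3⟩ := exists_miss
    (fun j : Fin P.B => f (lf P h hh j (by rw [hl]; exact j.2))) (by
      intro i j hij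
      have := @h1 ⟨i, by rw [hl]; exact i.2⟩ ⟨j, by rw [hl]; exact j.2⟩ hij
      exact Fin.ext (by simpa using this))
  refine ⟨m, fun j hj => ?_, fun i hi => ?_⟩
  · exact h2 ⟨j, by rw [← hl]; exact hj⟩
  · obtain ⟨j, hj⟩ := h3 i hi
    exact ⟨j, _, hj⟩

/-- The vertices adjacent to full hubs, and the full hubs. -/
abbrev FT (P : Par) : Type := Option (Fin P.B) ⊕ (Fin P.B ⊕ Fin (P.B * P.B))

theorem hv_y0 {q : ℕ} (hq : q < P.B * P.B) : HV P (Hub.y q 0 0) := by
  change 0 < P.N q 0
  rw [P.hN0 q hq]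
  exact Nat.one_pos

/-- The vertex of an element of `FT`. -/
def fv : FT P → VT P
  | Sum.inl none => rt P
  | Sum.inl (some a) => hb P (Hub.z a) a.2
  | Sum.inr (Sum.inl b) => hb P (Hub.w b) b.2
  | Sum.inr (Sum.inr q) => hb P (Hub.y q 0 0) (hv_y0 q.2)

theorem fv_inj : Function.Injective (fv (P := P)) := by
  intro x y h
  have h1 := congrArg (fun x : VT P => x.1.1) h
  rcases x with (_ | a) | (b | q) <;> rcases y with (_ | a') | (b' | q') <;>
    simp only [fv, rt, hb, Hub.z.injEq, Hub.w.injEq, Hub.y.injEq, reduceCtorEq, and_true] at h1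
  · rfl
  · rw [Fin.ext h1]
  · rw [Fin.ext h1]
  · rw [Fin.ext h1]

theorem near_inl (hf : Resolving (TG P) f) (x : Option (Fin P.B)) :
    Near f (fv (Sum.inl x)) (f (fv (Sum.inl x))) (f (fv (Sum.inl x))) := by
  apply near_full hf
  intro i _
  cases x with
  | none =>
    obtain ⟨j, hj, rfl⟩ := full_leaves hf (h := Hub.c) trivial rfl i
    exact leaf_le
  | some a =>
    obtain ⟨j, hj, rfl⟩ := full_leaves hf (h := Hub.z a) a.2 rfl i
    exact leaf_le

theorem near_fv (hf : Resolving (TG P) f) (x : FT P) : ∃ m, Near f (fv x) (f (fv x)) m := by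
  rcases x with x | (b | q)
  · exact ⟨_, near_inl hf x⟩
  · obtain ⟨m, h1, h2⟩ := miss_leaves hf (h := Hub.w b) b.2 rfl
    refine near_of hf m (fun i hi => ?_) ?_
    · obtain ⟨j, hj, rfl⟩ := h2 i hi
      exact leaf_le
    · obtain ⟨j, hj, he⟩ := full_leaves hf (h := Hub.z 0) P.hB rfl m
      rw [← he]
      exact nb_le (adj_w P b.2)
  · obtain ⟨m, h1, h2⟩ := miss_leaves hf (hv_y0 q.2) rfl
    refine near_of hf m (fun i hi => ?_) ?_
    · obtain ⟨j, hj, rfl⟩ := h2 i hi
      exact leaf_le
    · obtain ⟨j, hj, he⟩ := full_leaves hf (h := Hub.c) trivial rfl m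
      rw [← he]
      exact nb_le (adj_y0 P (hv_y0 q.2))

theorem forced (hf : Resolving (TG P) f) {v : VT P} {c m : Fin (P.B + 1)} (h : Near f v c m) :
    ∃ x, v = fv x := by
  choose mm hmm using near_fv hf
  have hinj : Function.Injective (fun x : FT P => (f (fv x), mm x)) := by
    intro x y hxy
    simp only [Prod.mk.injEq] at hxy
    have h1 := hmm x
    rw [hxy.1, hxy.2] at h1
    exact fv_inj (near_unique hf h1 (hmm y))
  have hbij := (Fintype.bijective_iff_injective_and_card
    (fun x : FT P => (f (fv x), mm x))).2 ⟨hinj, by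
      simp only [Fintype.card_sum, Fintype.card_option, Fintype.card_fin, Fintype.card_prod]
      ring⟩
  obtain ⟨x, hx⟩ := hbij.2 (c, m)
  simp only [Prod.mk.injEq] at hx
  refine ⟨x, ?_⟩
  have h1 := hmm x
  rw [hx.1, hx.2] at h1
  exact near_unique hf h h1

theorem full_forced (hf : Resolving (TG P) f) {v : VT P} {c : Fin (P.B + 1)} (h : Near f v c c) :
    ∃ x, v = fv (Sum.inl x) := by
  have hinj : Function.Injective (fun x : Option (Fin P.B) => f (fv (P := P) (Sum.inl x))) := by
    intro x y hxy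
    simp only at hxy
    have h1 := near_inl hf x
    rw [hxy] at h1
    have := fv_inj (near_unique hf h1 (near_inl hf y))
    simpa using this
  have hbij := (Fintype.bijective_iff_injective_and_card
    (fun x : Option (Fin P.B) => f (fv (P := P) (Sum.inl x)))).2 ⟨hinj, by simp⟩
  obtain ⟨x, hx⟩ := hbij.2 c
  refine ⟨x, ?_⟩
  have h1 := near_inl hf x
  simp only at hx
  rw [hx] at h1
  exact near_unique hf h h1

/-- The facts about the hubs of an item. -/
theorem item_facts (hf : Resolving (TG P) f) {q : ℕ} (hq : q < P.B * P.B) :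
    ∃ m, f (rt P) ≠ m ∧ ∀ d r (h : HV P (Hub.y q d r)), f (hb P _ h) ≠ m ∧
      (∀ j (hj : j < lam P (Hub.y q d r)), f (lf P _ h j hj) ≠ m) ∧
      ∀ i, i ≠ m → ∃ j, ∃ hj : j < lam P (Hub.y q d r), f (lf P _ h j hj) = i := by
  obtain ⟨m, h1, h2⟩ := miss_leaves hf (hv_y0 hq) rfl
  have hne : ∀ x, hb P (Hub.y q 0 0) (hv_y0 hq) ≠ fv (Sum.inl x) := by
    intro x e
    have := congrArg (fun x : VT P => x.1.1) e
    cases x <;> simp [fv, hb, rt] at this
  have hroot : f (rt P) ≠ m := by
    intro e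
    have h3 : Near f (hb P (Hub.y q 0 0) (hv_y0 hq)) (f (hb P (Hub.y q 0 0) (hv_y0 hq)))
        (f (hb P (Hub.y q 0 0) (hv_y0 hq))) := by
      apply near_full hf
      intro i _
      by_cases hi : i = m
      · rw [hi, ← e]
        refine (clsDist_le rfl).trans ?_
        rw [SimpleGraph.dist_eq_one_iff_adj.2 (adj_y0 P (hv_y0 hq))]
      · obtain ⟨j, hj, rfl⟩ := h2 i hi
        exact leaf_le
    obtain ⟨x, hx⟩ := full_forced hf h3
    exact hne x hx
  refine ⟨m, hroot, fun d => ?_⟩
  induction d with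
  | zero =>
    intro r h
    have hr : r = 0 := by
      have h3 : r < P.N q 0 := h
      rw [P.hN0 q hq] at h3
      omega
    subst hr
    refine ⟨fun e => ?_, h1, h2⟩
    have h3 := near_full hf (v := hb P (Hub.y q 0 0) h) (fun i hi => by
      obtain ⟨j, hj, rfl⟩ := h2 i (by rw [← e]; exact hi)
      exact leaf_le)
    obtain ⟨x, hx⟩ := full_forced hf h3
    exact hne x hx
  | succ d ih =>
    intro r h
    obtain ⟨i1, i2, i3⟩ := ih 0 (hv_par P h)
    obtain ⟨m', h3, h4⟩ := miss_leaves hf h rfl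
    have hnf : ∀ x, hb P (Hub.y q (d + 1) r) h ≠ fv x := by
      intro x e
      have := congrArg (fun x : VT P => x.1.1) e
      rcases x with (_ | a) | (b | q') <;> simp [fv, hb, rt] at this
    have hm : m' = m := by
      by_contra hne'
      obtain ⟨j, hj, he⟩ := i3 m' hne'
      obtain ⟨m'', h5⟩ := near_of hf (v := hb P (Hub.y q (d + 1) r) h) m' (fun i hi => by
        obtain ⟨j, hj, rfl⟩ := h4 i hi
        exact leaf_le) (by
        rw [← he]
        exact nb_le (adj_y P h))
      obtain ⟨x, hx⟩ := forced hf h5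
      exact hnf x hx
    subst hm
    refine ⟨fun e => ?_, h3, h4⟩
    have h5 := near_full hf (v := hb P (Hub.y q (d + 1) r) h) (fun i hi => by
      obtain ⟨j, hj, rfl⟩ := h4 i (by rw [← e]; exact hi)
      exact leaf_le)
    obtain ⟨x, hx⟩ := forced hf h5
    exact hnf x hx

/-- The distance of a hub of an item from the missing class. -/
theorem item_dist (hf : Resolving (TG P) f) {q : ℕ} {m : Fin (P.B + 1)} (h0 : f (rt P) ≠ m)
    (h1 : ∀ d r (h : HV P (Hub.y q d r)), f (hb P _ h) ≠ m ∧
      (∀ j (hj : j < lam P (Hub.y q d r)), f (lf P _ h j hj) ≠ m)) {d r : ℕ}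
    (h : HV P (Hub.y q d r)) : clsDist (TG P) f (hb P _ h) m = d + 2 := by
  apply le_antisymm
  · obtain ⟨j, hj, he⟩ := full_leaves hf (h := Hub.c) trivial rfl m
    refine (clsDist_le he).trans ?_
    have h2 := (conn P).dist_triangle (u := hb P _ h) (v := rt P)
      (w := lf P Hub.c trivial j hj)
    have h3 := dist_root P h
    have h4 : (TG P).dist (rt P) (lf P Hub.c trivial j hj) = 1 :=
      SimpleGraph.dist_eq_one_iff_adj.2 (lf_adj P (h := Hub.c) (hh := trivial) (hj := hj)).symm
    omega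
  · refine le_clsDist (hf.1 m) fun s hs => ?_
    have h2 := lip (conn P) (phiY_lip P q) (hb P _ h) s
    have h3 : phiY q (hb P _ h).1 = d + 2 := by simp [hb, phiY]
    have h4 : phiY q s.1 = 0 := by
      obtain ⟨⟨h', l⟩, hs1, hs2⟩ := s
      cases l with
      | zero =>
        cases h' with
        | c => exact absurd hs h0
        | z a => rfl
        | w b => rfl
        | y q' d' r' =>
          simp only [phiY]
          rw [if_neg]
          rintro rfl
          exact (h1 d' r' hs1).1 hs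
      | succ l =>
        cases h' with
        | c => rfl
        | z a => rfl
        | w b => rfl
        | y q' d' r' =>
          simp only [phiY]
          rw [if_neg]
          rintro rfl
          exact (h1 d' r' hs1).2 l hs2 hs
    omega

/-- **Soundness**: the items are packed into `B` bins, and at every positive depth two items in
the same bin have together at most `B` hubs. -/
theorem sound_core (hf : Resolving (TG P) f) : ∃ (γ : Fin (P.B + 1)) (m : ℕ → Fin (P.B + 1)),
    (∀ q < P.B * P.B, m q ≠ γ) ∧ ∀ q < P.B * P.B, ∀ q' < P.B * P.B, ∀ d, q ≠ q' → 0 < d →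
      m q = m q' → P.N q d + P.N q' d ≤ P.B := by
  classical
  have h1 : ∀ q, ∃ m : Fin (P.B + 1), q < P.B * P.B → (f (rt P) ≠ m ∧
      ∀ d r (h : HV P (Hub.y q d r)), f (hb P _ h) ≠ m ∧
      (∀ j (hj : j < lam P (Hub.y q d r)), f (lf P _ h j hj) ≠ m) ∧
      ∀ i, i ≠ m → ∃ j, ∃ hj : j < lam P (Hub.y q d r), f (lf P _ h j hj) = i) := by
    intro q
    by_cases hq : q < P.B * P.B
    · obtain ⟨m, hm⟩ := item_facts hf hq
      exact ⟨m, fun _ => hm⟩
    · exact ⟨0, fun h => absurd h hq⟩
  choose m hm using h1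
  refine ⟨f (rt P), m, fun q hq => (hm q hq).1.symm, ?_⟩
  intro q hq q' hq' d hne hd hmm
  obtain ⟨a0, a1⟩ := hm q hq
  obtain ⟨b0, b1⟩ := hm q' hq'
  rw [← hmm] at b0 b1
  -- the map to the classes
  let g : Fin (P.N q d) ⊕ Fin (P.N q' d) → VT P := fun x => match x with
    | Sum.inl r => hb P (Hub.y q d r) r.2
    | Sum.inr r => hb P (Hub.y q' d r) r.2
  have hg : Function.Injective g := by
    intro x y h
    have h1 := congrArg (fun x : VT P => x.1.1) h
    rcases x with x | x <;> rcases y with y | y <;>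
      simp only [g, hb, Hub.y.injEq, true_and] at h1
    · rw [Fin.ext h1]
    · exact absurd h1.1 hne
    · exact absurd h1.1.symm hne
    · rw [Fin.ext h1]
  have hcd : ∀ x, f (g x) ≠ m q ∧ clsDist (TG P) f (g x) (m q) = d + 2 ∧
      ∀ i, i ≠ f (g x) → i ≠ m q → clsDist (TG P) f (g x) i = 1 := by
    intro x
    rcases x with x | x
    · obtain ⟨c1, c2, c3⟩ := a1 d x x.2
      refine ⟨c1, item_dist hf a0 (fun d r h => ⟨(a1 d r h).1, (a1 d r h).2.1⟩) x.2,
        fun i hi hi' => le_antisymm ?_ (one_le hf hi)⟩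
      obtain ⟨j, hj, rfl⟩ := c3 i hi'
      exact leaf_le
    · obtain ⟨c1, c2, c3⟩ := b1 d x x.2
      refine ⟨c1, item_dist hf b0 (fun d r h => ⟨(b1 d r h).1, (b1 d r h).2.1⟩) x.2,
        fun i hi hi' => le_antisymm ?_ (one_le hf hi)⟩
      obtain ⟨j, hj, rfl⟩ := c3 i hi'
      exact leaf_le
  have hinj : Function.Injective (fun x => (⟨f (g x), (hcd x).1⟩ : {i // i ≠ m q})) := by
    intro x y hxy
    simp only [Subtype.mk.injEq] at hxy
    apply hg
    apply hf.2
    intro i
    by_cases hi : i = f (g x)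
    · have e1 : clsDist (TG P) f (g x) i = 0 := by rw [hi]; exact clsDist_self
      have e2 : clsDist (TG P) f (g y) i = 0 := by rw [hi, hxy]; exact clsDist_self
      rw [e1, e2]
    · by_cases hi' : i = m q
      · rw [hi', (hcd x).2.1, (hcd y).2.1]
      · rw [(hcd x).2.2 i hi hi', (hcd y).2.2 i (by rw [← hxy]; exact hi) hi']
  have hcard := Fintype.card_le_of_injective _ hinj
  simpa [Fintype.card_subtype_compl] using hcard

end Pool.Agent.H442R3.PD
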