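import Pool.Agent.H442R3.PD.Compl
import Pool.Agent.H442R3.PD.Sound
import Pool.Agent.H692R2.Col

/-!
# The partition dimension: the trees of the reduction from 3-colouring
-/

namespace Pool.Agent.H442R3.PD

open Pool.Agent.H692R2

/-- The number of items which stand for vertices. -/
def NI (E : List (ℕ × ℕ)) : ℕ := 2 * E.length

/-- The number of bins and the capacity of the bins. -/
def BB (E : List (ℕ × ℕ)) : ℕ := 2 * NI E + 3

/-- The number of hubs of the item `q` at depth `d`. -/
def NN (E : List (ℕ × ℕ)) (q d : ℕ) : ℕ :=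
  if BB E * BB E ≤ q then 0 else
  if d = 0 then 1 else
  if q < NI E then
    (if d = 1 then 1 else
      if d < E.length + 2 then
        (if q = (E.getD (d - 2) (0, 0)).1 ∨ q = (E.getD (d - 2) (0, 0)).2 then NI E + 2 else 1)
      else 0)
  else if q < 3 * NI E then (if d = 1 then BB E else 0) else 0

theorem three_le (E : List (ℕ × ℕ)) : 3 * NI E < BB E * BB E := by
  unfold BB
  nlinarith [Nat.zero_le (NI E)]

/-- The parameters of the tree. -/
def PP (E : List (ℕ × ℕ)) : Par where
  B := BB E
  N := NN E
  hB := by unfold BB; omega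
  hN0 := by
    intro q hq
    unfold NN
    rw [if_neg (by omega), if_pos rfl]
  hNq := by
    intro q d hq
    unfold NN
    rw [if_pos hq]
  hNd := by
    intro q d h
    have hB : 0 < BB E := by unfold BB; omega
    unfold NN at h ⊢
    split_ifs at h ⊢ <;> first | omega | contradiction

theorem PP_B (E : List (ℕ × ℕ)) : (PP E).B = BB E := rfl

theorem PP_N (E : List (ℕ × ℕ)) (q d : ℕ) : (PP E).N q d = NN E q d := rfl

theorem NN_fill {E : List (ℕ × ℕ)} {q : ℕ} (h1 : NI E ≤ q) (h2 : q < 3 * NI E) :
    NN E q 1 = BB E := by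
  have := three_le E
  unfold NN
  rw [if_neg (by omega), if_neg (by omega), if_neg (by omega), if_pos h2, if_pos rfl]

theorem NN_vert {E : List (ℕ × ℕ)} {q : ℕ} (h1 : q < NI E) : NN E q 1 = 1 := by
  have := three_le E
  unfold NN
  rw [if_neg (by omega), if_neg (by omega), if_pos h1, if_pos rfl]

theorem NN_edge {E : List (ℕ × ℕ)} {q t : ℕ} (h1 : q < NI E) (ht : t < E.length)
    (hq : q = (E.getD t (0, 0)).1 ∨ q = (E.getD t (0, 0)).2) : NN E q (t + 2) = NI E + 2 := by
  have := three_le E
  unfold NN
  rw [if_neg (by omega), if_neg (by omega), if_pos h1, if_neg (by omega), if_pos (by omega),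
    if_pos (by simpa using hq)]

/-- **Soundness.** -/
theorem col_of_resolving {E : List (ℕ × ℕ)}
    (hE : ∀ e ∈ E, e.1 ≠ e.2 ∧ e.1 < 2 * E.length ∧ e.2 < 2 * E.length)
    {f : VT (PP E) → Fin ((PP E).B + 1)} (hf : Resolving (TG (PP E)) f) : Col 3 E := by
  classical
  obtain ⟨γ, m, h1, h2⟩ := sound_core hf
  simp only [PP_B, PP_N] at h1 h2
  change Fin (BB E + 1) at γ
  change ℕ → Fin (BB E + 1) at m
  have h3 := three_le E
  have hfill : ∀ p, NI E ≤ p → p < 3 * NI E → ∀ q, q < 3 * NI E → q ≠ p → m p ≠ m q := by
    intro p hp hp' q hq hne he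
    have h4 := h2 p (by omega) q (by omega) 1 hne.symm Nat.one_pos he
    rw [NN_fill hp hp'] at h4
    by_cases hq' : q < NI E
    · rw [NN_vert hq'] at h4
      omega
    · rw [NN_fill (by omega) hq] at h4
      unfold BB at h4
      omega
  set T : Finset (Fin (BB E + 1)) := insert γ ((Finset.Ico (NI E) (3 * NI E)).image m) with hT
  have hTc : T.card = 2 * NI E + 1 := by
    rw [hT, Finset.card_insert_of_notMem, Finset.card_image_of_injOn, Nat.card_Ico]
    · omega
    · intro p hp q hq he
      simp only [Finset.coe_Ico, Set.mem_Ico] at hp hq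
      by_contra hne
      exact hfill p hp.1 hp.2 q hq.2 (fun e => hne e.symm) he
    · intro h4
      rw [Finset.mem_image] at h4
      obtain ⟨p, hp, he⟩ := h4
      rw [Finset.mem_Ico] at hp
      exact h1 p (by omega) he
  have hSc : Tᶜ.card = 3 := by
    rw [Finset.card_compl, hTc, Fintype.card_fin]
    unfold BB
    omega
  have hmem : ∀ q, q < NI E → m q ∈ Tᶜ := by
    intro q hq
    rw [Finset.mem_compl, hT, Finset.mem_insert, Finset.mem_image]
    rintro (h4 | ⟨p, hp, he⟩)
    · exact h1 q (by omega) h4
    · rw [Finset.mem_Ico] at hp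
      exact hfill p hp.1 hp.2 q (by omega) (by omega) he
  let e := Tᶜ.equivFinOfCardEq hSc
  refine ⟨fun q => if h : q < NI E then e ⟨m q, hmem q h⟩ else 0, ?_⟩
  intro a ha
  obtain ⟨hne, ha1, ha2⟩ := hE a ha
  have ha1' : a.1 < NI E := ha1
  have ha2' : a.2 < NI E := ha2
  simp only
  rw [dif_pos ha1', dif_pos ha2']
  intro he
  have he1 := e.injective he
  rw [Subtype.mk.injEq] at he1
  obtain ⟨t, ht, hta⟩ := List.getElem_of_mem ha
  have hg : E.getD t (0, 0) = a := by
    rw [List.getD_eq_getElem?_getD, List.getElem?_eq_getElem ht, Option.getD_some, hta]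
  have h5 := h2 a.1 (by omega) a.2 (by omega) (t + 2) hne (by omega) he1
  rw [NN_edge ha1' ht (Or.inl (by rw [hg])), NN_edge ha2' ht (Or.inr (by rw [hg]))] at h5
  unfold BB at h5
  omega

/-! ## Completeness -/

/-- The pairs of a bin and a different class. -/
def pairs (B : ℕ) : Finset (ℕ × ℕ) :=
  ((Finset.range B) ×ˢ (Finset.range B)).image (fun p => (skip (p.2 + 1) p.1, p.2 + 1))

theorem card_pairs (B : ℕ) : (pairs B).card = B * B := by
  unfold pairs
  rw [Finset.card_image_of_injective, Finset.card_product, Finset.card_range]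
  rintro ⟨a, b⟩ ⟨a', b'⟩ h
  simp only [Prod.mk.injEq, Nat.add_right_cancel_iff] at h
  obtain ⟨h1, rfl⟩ := h
  rw [skip_inj h1]

theorem mem_pairs {B : ℕ} {p : ℕ × ℕ} :
    p ∈ pairs B ↔ p.1 ≤ B ∧ 1 ≤ p.2 ∧ p.2 ≤ B ∧ p.1 ≠ p.2 := by
  unfold pairs
  rw [Finset.mem_image]
  constructor
  · rintro ⟨⟨a, b⟩, hab, rfl⟩
    rw [Finset.mem_product, Finset.mem_range, Finset.mem_range] at hab
    exact ⟨skip_le hab.1, Nat.succ_pos _, hab.2, skip_ne _ _⟩
  · rintro ⟨h1, h2, h3, h4⟩
    refine ⟨(unskip p.2 p.1, p.2 - 1), ?_, ?_⟩
    · rw [Finset.mem_product, Finset.mem_range, Finset.mem_range]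
      exact ⟨unskip_lt h4 h1 h3, by simp only; omega⟩
    · have h5 : p.2 - 1 + 1 = p.2 := by omega
      simp only [h5, skip_unskip h4]

theorem exists_bij {E : List (ℕ × ℕ)} (c : ℕ → Fin 3) : ∃ β : ℕ → ℕ × ℕ,
    (∀ q < BB E * BB E, β q ∈ pairs (BB E)) ∧
    (∀ q < BB E * BB E, ∀ q' < BB E * BB E, β q = β q' → q = q') ∧
    (∀ q < NI E, β q = (q + 4, (c q : ℕ) + 1)) ∧
    (∀ q, NI E ≤ q → q < 3 * NI E → β q = (0, q - NI E + 4)) := by
  classical
  have h3 := three_le E
  let g : Fin (BB E * BB E) → ℕ × ℕ := fun q =>
    if (q : ℕ) < NI E then ((q : ℕ) + 4, (c q : ℕ) + 1) else (0, (q : ℕ) - NI E + 4)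
  obtain ⟨β, hβ⟩ := Finset.exists_equiv_extend_of_card_eq
    (α := Fin (BB E * BB E)) (β := ℕ × ℕ) (t := pairs (BB E))
    (by rw [Fintype.card_fin, card_pairs])
    (s := Finset.univ.filter (fun q => (q : ℕ) < 3 * NI E)) (f := g) (by
      intro p hp
      rw [Finset.mem_image] at hp
      obtain ⟨q, hq, rfl⟩ := hp
      rw [Finset.mem_filter] at hq
      have hq2 := hq.2
      rw [mem_pairs]
      simp only [g]
      have hc := (c q).2
      unfold BB
      split_ifs with h
      · exact ⟨by simp only; omega, by simp only; omega, by simp only; omega,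
          by simp only; omega⟩
      · exact ⟨by simp only; omega, by simp only; omega, by simp only; omega,
          by simp only; omega⟩) (by
      intro q hq q' hq' he
      simp only [g] at he
      split_ifs at he with h h' h'
      · simp only [Prod.mk.injEq] at he
        exact Fin.ext (by omega)
      · simp only [Prod.mk.injEq] at he
        omega
      · simp only [Prod.mk.injEq] at he
        omega
      · simp only [Prod.mk.injEq] at he
        exact Fin.ext (by omega))
  refine ⟨fun q => if h : q < BB E * BB E then (β ⟨q, h⟩ : ℕ × ℕ) else (0, 0), ?_, ?_, ?_, ?_⟩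
  · intro q hq
    simp only
    rw [dif_pos hq]
    exact (β ⟨q, hq⟩).2
  · intro q hq q' hq' he
    simp only at he
    rw [dif_pos hq, dif_pos hq'] at he
    have := β.injective (Subtype.ext he)
    simpa using this
  · intro q hq
    have hq' : q < BB E * BB E := by omega
    simp only
    rw [dif_pos hq', hβ ⟨q, hq'⟩ (by simp; omega)]
    simp only [g]
    rw [if_pos hq]
  · intro q hq1 hq2
    have hq' : q < BB E * BB E := by omega
    simp only
    rw [dif_pos hq', hβ ⟨q, hq'⟩ (by simp; omega)]
    simp only [g]
    rw [if_neg (by omega)]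

/-- The class of a hub of an item of depth at least one. -/
def idx (E : List (ℕ × ℕ)) (q r : ℕ) : ℕ :=
  if q < NI E then (if r = 0 then q else NI E + r - 1) else r

theorem NN_pos {E : List (ℕ × ℕ)} {q d r : ℕ} (h : r < NN E q (d + 1)) :
    q < 3 * NI E ∧ (q < NI E → r < NI E + 2) ∧ (NI E ≤ q → r < BB E) := by
  have hB : NI E + 2 < BB E := by unfold BB; omega
  unfold NN at h
  split_ifs at h <;> first | omega | contradiction

theorem NN_two {E : List (ℕ × ℕ)} {q d r : ℕ} (h : r < NN E q (d + 1)) (hq : q < NI E)
    (hr : r ≠ 0) : ∃ t, d = t + 1 ∧ t < E.length ∧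
      (q = (E.getD t (0, 0)).1 ∨ q = (E.getD t (0, 0)).2) := by
  unfold NN at h
  cases d with
  | zero =>
    split_ifs at h <;> omega
  | succ t =>
    refine ⟨t, rfl, ?_⟩
    have h5 : t + 1 + 1 - 2 = t := by omega
    rw [h5] at h
    rw [if_neg (by omega : ¬ t + 1 + 1 = 0), if_pos hq, if_neg (by omega : ¬ t + 1 + 1 = 1)] at h
    split_ifs at h with a1 a2 a3
    · omega
    · exact ⟨by omega, a3⟩
    · omega
    · omega

/-- **Completeness.** -/
theorem resolving_of_col {E : List (ℕ × ℕ)} (h : Col 3 E) :
    ∃ f : VT (PP E) → Fin ((PP E).B + 1), Resolving (TG (PP E)) f := by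
  obtain ⟨c, hc⟩ := h
  obtain ⟨β, b1, b2, b3, b4⟩ := exists_bij (E := E) c
  have h3 := three_le E
  let K : Pk (PP E) :=
    { m := fun q => (β q).2
      col := fun q d r => if d = 0 then (β q).1 else skip (β q).2 (idx E q r)
      hm := by
        intro q hq
        have := mem_pairs.1 (b1 q hq)
        exact ⟨this.2.1, this.2.2.1⟩
      hc := by
        intro q d r hr
        have hq : q < BB E * BB E := q_lt (P := PP E) hr
        have h4 := mem_pairs.1 (b1 q hq)
        split_ifs with hd
        · exact ⟨h4.1, h4.2.2.2⟩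
        · refine ⟨?_, skip_ne _ _⟩
          apply skip_le
          obtain ⟨d, rfl⟩ := Nat.exists_eq_succ_of_ne_zero hd
          obtain ⟨h5, h6, h7⟩ := NN_pos (E := E) (q := q) (d := d) (r := r) hr
          change idx E q r < BB E
          unfold idx
          unfold BB at *
          split_ifs <;> omega
      hi := by
        intro q d r q' r' hr hr' hm he
        have hq : q < BB E * BB E := q_lt (P := PP E) hr
        have hq' : q' < BB E * BB E := q_lt (P := PP E) hr'
        split_ifs at he with hd
        · have h4 : q = q' := b2 q hq q' hq' (Prod.ext he hm)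
          subst hd
          have h5 : (PP E).N q 0 = 1 := (PP E).hN0 q hq
          have h6 : (PP E).N q' 0 = 1 := (PP E).hN0 q' hq'
          exact ⟨h4, by omega⟩
        · obtain ⟨d, rfl⟩ := Nat.exists_eq_succ_of_ne_zero hd
          rw [hm] at he
          have h4 := skip_inj he
          obtain ⟨h5, h6, h7⟩ := NN_pos (E := E) (q := q) (d := d) (r := r) hr
          obtain ⟨h5', h6', h7'⟩ := NN_pos (E := E) (q := q') (d := d) (r := r') hr'
          have hcq := (c q).2
          have hcq' := (c q').2
          unfold idx at h4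
          by_cases a1 : q < NI E
          · by_cases a2 : q' < NI E
            · rw [if_pos a1, if_pos a2] at h4
              by_cases a3 : r = 0
              · by_cases a4 : r' = 0
                · rw [if_pos a3, if_pos a4] at h4
                  exact ⟨h4, by omega⟩
                · rw [if_pos a3, if_neg a4] at h4
                  omega
              · by_cases a4 : r' = 0
                · rw [if_neg a3, if_pos a4] at h4
                  omega
                · rw [if_neg a3, if_neg a4] at h4
                  refine ⟨?_, by omega⟩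
                  by_contra hne
                  obtain ⟨t, ht1, ht2, ht3⟩ := NN_two (E := E) (d := d) hr a1 a3
                  obtain ⟨t', ht1', ht2', ht3'⟩ := NN_two (E := E) (d := d) hr' a2 a4
                  have htt : t' = t := by omega
                  subst htt
                  rw [b3 q a1, b3 q' a2] at hm
                  simp only [Nat.add_right_cancel_iff] at hm
                  have hcc : c q = c q' := Fin.ext hm
                  have hmem : E.getD t' (0, 0) ∈ E := by
                    rw [List.getD_eq_getElem?_getD, List.getElem?_eq_getElem ht2,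
                      Option.getD_some]
                    exact List.getElem_mem _
                  have h8 := hc _ hmem
                  generalize E.getD t' (0, 0) = a at *
                  rcases ht3 with rfl | rfl <;> rcases ht3' with rfl | rfl
                  · exact hne rfl
                  · exact h8 hcc
                  · exact h8 hcc.symm
                  · exact hne rfl
            · rw [b3 q a1, b4 q' (by omega) h5'] at hm
              simp only at hm
              omega
          · by_cases a2 : q' < NI E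
            · rw [b4 q (by omega) h5, b3 q' a2] at hm
              simp only at hm
              omega
            · rw [b4 q (by omega) h5, b4 q' (by omega) h5'] at hm
              simp only at hm
              rw [if_neg a1, if_neg a2] at h4
              exact ⟨by omega, h4⟩ }
  exact ⟨ff K, complete_core K (by change 3 ≤ BB E; unfold BB; omega)⟩

/-- The partition dimension of the tree decides 3-colourability. -/
theorem partDim_tree {E : List (ℕ × ℕ)} [Finite (VT (PP E))]
    (hE : ∀ e ∈ E, e.1 ≠ e.2 ∧ e.1 < 2 * E.length ∧ e.2 < 2 * E.length) :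
    partDim (TG (PP E)) ≤ BB E + 1 ↔ Col 3 E := by
  rw [partDim_le_iff (conn _)]
  constructor
  · rintro ⟨k', hk', f, hf⟩
    have h1 := k_ge hf
    have h2 : k' = (PP E).B + 1 := le_antisymm hk' h1
    subst h2
    exact col_of_resolving hE hf
  · intro h
    obtain ⟨f, hf⟩ := resolving_of_col h
    exact ⟨_, le_refl _, f, hf⟩

end Pool.Agent.H442R3.PD
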