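import Pool.Agent.H442R3.PD.Enc

/-!
# The partition dimension: the reduction is computable in polynomial time
-/

namespace Pool.Agent.H442R3.PD

open Pool.Agent.NPC Pool.Agent.NPC.R671 Pool.Agent.H692R2

theorem poly_NI {α : Type} [TEnc α] {E : α → List (ℕ × ℕ)} (hE : Poly E) :
    UPoly (fun a => NI (E a)) := UPoly.mul (UPoly.const 2) (UPoly.length hE)

theorem poly_BB {α : Type} [TEnc α] {E : α → List (ℕ × ℕ)} (hE : Poly E) :
    UPoly (fun a => BB (E a)) :=
  UPoly.add (UPoly.mul (UPoly.const 2) (poly_NI hE)) (UPoly.const 3)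

theorem poly_NI' {α : Type} [TEnc α] {E : α → List (ℕ × ℕ)} (hE : Poly E) :
    Poly (fun a => NI (E a)) := (poly_NI hE).toPoly

theorem poly_BB' {α : Type} [TEnc α] {E : α → List (ℕ × ℕ)} (hE : Poly E) :
    Poly (fun a => BB (E a)) := (poly_BB hE).toPoly

attribute [local fun_prop] poly_NI' poly_BB'

theorem poly_NN {α : Type} [TEnc α] {E : α → List (ℕ × ℕ)} {q d : α → ℕ} (hE : Poly E)
    (hq : Poly q) (hd : Poly d) : Poly (fun a => NN (E a) (q a) (d a)) := by
  unfold NN
  fun_prop

attribute [local fun_prop] poly_NN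

theorem poly_okC {α : Type} [TEnc α] {E : α → List (ℕ × ℕ)} {x : α → Nm} (hE : Poly E)
    (hx : Poly x) : Poly (fun a => okC (E a) (x a)) := by
  unfold okC
  fun_prop

attribute [local fun_prop] poly_okC

theorem poly_names : Poly names := by
  unfold names
  have h1 : Poly (fun E : List (ℕ × ℕ) => List.range (BB E * BB E)) :=
    (UPoly.mul (poly_BB Poly.id) (poly_BB Poly.id)).range
  have h2 : Poly (fun E : List (ℕ × ℕ) => List.range (E.length + 2)) :=
    (UPoly.add (UPoly.length Poly.id) (UPoly.const 2)).range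
  have h3 : Poly (fun E : List (ℕ × ℕ) => List.range (BB E + 2)) :=
    (UPoly.add (poly_BB Poly.id) (UPoly.const 2)).range
  have h4 : Poly (fun E : List (ℕ × ℕ) => List.range 4) := NPC.Poly.const _
  fun_prop

theorem poly_parC {α : Type} [TEnc α] {x : α → Nm} (hx : Poly x) :
    Poly (fun a => parC (x a)) := by
  unfold parC
  fun_prop

attribute [local fun_prop] poly_parC

theorem poly_adC {α : Type} [TEnc α] {x y : α → Nm} (hx : Poly x) (hy : Poly y) :
    Poly (fun a => adC (x a) (y a)) := by
  unfold adC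
  fun_prop

attribute [local fun_prop] poly_adC

theorem poly_redPD : Poly redPD := by
  unfold redPD
  have h1 := poly_names
  fun_prop

end Pool.Agent.H442R3.PD
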