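import Pool.Agent.H442R3.PD.Gen
import Pool.Agent.H673R2.TsTree

/-!
# The partition dimension: the trees of the reduction
-/

namespace Pool.Agent.H442R3.PD

/-- The vertices of the tree which are not leaves. -/
inductive Hub : Type
  | c : Hub
  | z (a : ℕ) : Hub
  | w (b : ℕ) : Hub
  | y (q d r : ℕ) : Hub
  deriving DecidableEq

/-- Parameters of the tree. -/
structure Par : Type where
  /-- the number of bins and their capacity -/
  B : ℕ
  /-- the number of hubs of item `q` at depth `d` -/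
  N : ℕ → ℕ → ℕ
  hB : 0 < B
  hN0 : ∀ q < B * B, N q 0 = 1
  hNq : ∀ q d, B * B ≤ q → N q d = 0
  hNd : ∀ q d, 0 < N q (d + 1) → 0 < N q d

variable (P : Par)

/-- The hubs of the tree. -/
def HV : Hub → Prop
  | Hub.c => True
  | Hub.z a => a < P.B
  | Hub.w b => b < P.B
  | Hub.y q d r => r < P.N q d

/-- The number of leaves of a hub. -/
def lam : Hub → ℕ
  | Hub.c => P.B + 1
  | Hub.z _ => P.B + 1
  | Hub.w _ => P.B
  | Hub.y _ _ _ => P.B

/-- The parent. -/
def parN : Hub × ℕ → Hub × ℕ
  | (h, _ + 1) => (h, 0)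
  | (Hub.c, 0) => (Hub.c, 0)
  | (Hub.z _, 0) => (Hub.c, 0)
  | (Hub.w _, 0) => (Hub.z 0, 0)
  | (Hub.y _ 0 _, 0) => (Hub.c, 0)
  | (Hub.y q (d + 1) _, 0) => (Hub.y q d 0, 0)

/-- The level. -/
def levN : Hub × ℕ → ℕ
  | (Hub.c, l) => l
  | (Hub.z _, l) => l + 1
  | (Hub.w _, l) => l + 2
  | (Hub.y _ d _, l) => l + d + 1

/-- Names of vertices. -/
def okV (x : Hub × ℕ) : Prop := HV P x.1 ∧ x.2 ≤ lam P x.1

/-- The vertices of the tree. -/
abbrev VT : Type := {x : Hub × ℕ // okV P x}

theorem okV_par {x : Hub × ℕ} (h : okV P x) : okV P (parN x) := by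
  obtain ⟨h, l⟩ := x
  obtain ⟨h1, h2⟩ := h
  cases l with
  | succ l => exact ⟨h1, Nat.zero_le _⟩
  | zero =>
    cases h with
    | c => exact ⟨h1, Nat.zero_le _⟩
    | z a => exact ⟨trivial, Nat.zero_le _⟩
    | w b => exact ⟨P.hB, Nat.zero_le _⟩
    | y q d r =>
      cases d with
      | zero => exact ⟨trivial, Nat.zero_le _⟩
      | succ d => exact ⟨P.hNd q d (Nat.lt_of_le_of_lt (Nat.zero_le _) h1), Nat.zero_le _⟩

/-- The root. -/
def rt : VT P := ⟨(Hub.c, 0), trivial, Nat.zero_le _⟩

/-- The parent of a vertex. -/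
def pr (x : VT P) : VT P := ⟨parN x.1, okV_par P x.2⟩

/-- The tree. -/
def TG : SimpleGraph (VT P) := SimpleGraph.fromRel fun x y => x ≠ rt P ∧ y = pr P x

theorem lev_par {x : Hub × ℕ} (hx : x ≠ (Hub.c, 0)) : levN (parN x) < levN x := by
  obtain ⟨h, l⟩ := x
  cases l with
  | succ l => cases h <;> simp [parN, levN]
  | zero =>
    cases h with
    | c => exact absurd rfl hx
    | z a => simp [parN, levN]
    | w b => simp [parN, levN]
    | y q d r => cases d <;> simp [parN, levN]

theorem ne_rt {x : VT P} (hx : x ≠ rt P) : x.1 ≠ (Hub.c, 0) := fun h => hx (Subtype.ext h)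

theorem lev_lt {x : VT P} (hx : x ≠ rt P) : levN (pr P x).1 < levN x.1 := lev_par (ne_rt P hx)

theorem adj_iff {x y : VT P} :
    (TG P).Adj x y ↔ (x ≠ rt P ∧ y = pr P x) ∨ (y ≠ rt P ∧ x = pr P y) := by
  unfold TG
  rw [SimpleGraph.fromRel_adj]
  constructor
  · exact fun h => h.2
  · intro h
    refine ⟨?_, h⟩
    rintro rfl
    rcases h with ⟨h1, h2⟩ | ⟨h1, h2⟩
    · have := lev_lt P h1
      rw [← h2] at this
      exact lt_irrefl _ this
    · have := lev_lt P h1
      rw [← h2] at this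
      exact lt_irrefl _ this

theorem adj_par {x : VT P} (hx : x ≠ rt P) : (TG P).Adj x (pr P x) :=
  (adj_iff P).2 (Or.inl ⟨hx, rfl⟩)

theorem conn : (TG P).Connected := by
  have hreach : ∀ n (x : VT P), levN x.1 = n → (TG P).Reachable (rt P) x := by
    intro n
    induction n using Nat.strong_induction_on with
    | _ n ih =>
      intro x hx
      by_cases hr : x = rt P
      · rw [hr]
      · exact (ih _ (hx ▸ lev_lt P hr) _ rfl).trans (adj_par P hr).symm.reachable
  have : Nonempty (VT P) := ⟨rt P⟩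
  refine SimpleGraph.Connected.mk ?_
  intro x y
  exact (hreach _ x rfl).symm.trans (hreach _ y rfl)

theorem isTree [Fintype (VT P)] : (TG P).IsTree :=
  H673R2.Ts.isTree_of_parent (rt P) (pr P) (fun x => levN x.1) fun _ hx => lev_lt P hx

/-- A hub as a vertex. -/
def hb (h : Hub) (hh : HV P h) : VT P := ⟨(h, 0), hh, Nat.zero_le _⟩

/-- A leaf as a vertex. -/
def lf (h : Hub) (hh : HV P h) (j : ℕ) (hj : j < lam P h) : VT P := ⟨(h, j + 1), hh, hj⟩

theorem lf_adj {h : Hub} {hh : HV P h} {j : ℕ} {hj : j < lam P h} :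
    (TG P).Adj (lf P h hh j hj) (hb P h hh) := by
  have h1 : lf P h hh j hj ≠ rt P := by
    intro e
    have := congrArg (fun x : VT P => x.1.2) e
    simp [lf, rt] at this
  exact adj_par P h1

theorem lf_unique {h : Hub} {hh : HV P h} {j : ℕ} {hj : j < lam P h} {y : VT P}
    (ha : (TG P).Adj (lf P h hh j hj) y) : y = hb P h hh := by
  rw [adj_iff] at ha
  rcases ha with ⟨_, rfl⟩ | ⟨_, h2⟩
  · rfl
  · exfalso
    have h3 : (parN y.1).2 = j + 1 := by
      have := congrArg (fun x : VT P => x.1.2) h2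
      simpa [lf, pr] using this.symm
    obtain ⟨⟨h', l⟩, hy⟩ := y
    cases l with
    | succ l => simp [parN] at h3
    | zero =>
      cases h' with
      | c => simp [parN] at h3
      | z a => simp [parN] at h3
      | w b => simp [parN] at h3
      | y q d r => cases d <;> simp [parN] at h3

/-- Adjacency of a hub with its parent. -/
theorem adj_z {a : ℕ} (ha : HV P (Hub.z a)) : (TG P).Adj (hb P (Hub.z a) ha) (rt P) :=
  adj_par P (x := hb P (Hub.z a) ha) (fun e => by
    have := congrArg (fun x : VT P => x.1.1) e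
    simp [hb, rt] at this)

theorem adj_w {b : ℕ} (hb' : HV P (Hub.w b)) :
    (TG P).Adj (hb P (Hub.w b) hb') (hb P (Hub.z 0) P.hB) :=
  adj_par P (x := hb P (Hub.w b) hb') (fun e => by
    have := congrArg (fun x : VT P => x.1.1) e
    simp [hb, rt] at this)

theorem adj_y0 {q r : ℕ} (h : HV P (Hub.y q 0 r)) :
    (TG P).Adj (hb P (Hub.y q 0 r) h) (rt P) :=
  adj_par P (x := hb P (Hub.y q 0 r) h) (fun e => by
    have := congrArg (fun x : VT P => x.1.1) e
    simp [hb, rt] at this)

theorem hv_par {q d r : ℕ} (h : HV P (Hub.y q (d + 1) r)) : HV P (Hub.y q d 0) :=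
  P.hNd q d (Nat.lt_of_le_of_lt (Nat.zero_le _) h)

theorem adj_y {q d r : ℕ} (h : HV P (Hub.y q (d + 1) r)) :
    (TG P).Adj (hb P (Hub.y q (d + 1) r) h) (hb P (Hub.y q d 0) (hv_par P h)) :=
  adj_par P (x := hb P (Hub.y q (d + 1) r) h) (fun e => by
    have := congrArg (fun x : VT P => x.1.1) e
    simp [hb, rt] at this)

/-- The distance of a hub of an item from the root is at most the depth plus one. -/
theorem dist_root {q d r : ℕ} (h : HV P (Hub.y q d r)) :
    (TG P).dist (hb P (Hub.y q d r) h) (rt P) ≤ d + 1 := by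
  induction d generalizing r with
  | zero => rw [SimpleGraph.dist_eq_one_iff_adj.2 (adj_y0 P h)]
  | succ d ih =>
    have h1 := (conn P).dist_triangle (u := hb P (Hub.y q (d + 1) r) h)
      (v := hb P (Hub.y q d 0) (hv_par P h)) (w := rt P)
    have h2 := ih (hv_par P h)
    have h3 := SimpleGraph.dist_eq_one_iff_adj.2 (adj_y P h)
    omega

/-- The potential of the item `q`. -/
def phiY (q : ℕ) : Hub × ℕ → ℕ
  | (Hub.c, 0) => 1
  | (Hub.y q' d _, 0) => if q' = q then d + 2 else 0
  | (Hub.y q' d _, _ + 1) => if q' = q then d + 3 else 0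
  | _ => 0

theorem phiY_lip (q : ℕ) (a b : VT P) (h : (TG P).Adj a b) : phiY q a.1 ≤ phiY q b.1 + 1 := by
  have key : ∀ x : Hub × ℕ, x ≠ (Hub.c, 0) →
      phiY q x ≤ phiY q (parN x) + 1 ∧ phiY q (parN x) ≤ phiY q x + 1 := by
    rintro ⟨h, l⟩ hx
    cases l with
    | succ l =>
      cases h with
      | c => simp [phiY, parN]
      | z a => simp [phiY, parN]
      | w b => simp [phiY, parN]
      | y q' d r =>
        simp only [phiY, parN]
        split_ifs <;> omega
    | zero =>
      cases h with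
      | c => exact absurd rfl hx
      | z a => simp [phiY, parN]
      | w b => simp [phiY, parN]
      | y q' d r =>
        cases d with
        | zero =>
          simp only [phiY, parN]
          split_ifs <;> omega
        | succ d =>
          simp only [phiY, parN]
          split_ifs <;> omega
  rw [adj_iff] at h
  rcases h with ⟨h1, rfl⟩ | ⟨h1, rfl⟩
  · exact (key _ (ne_rt P h1)).1
  · exact (key _ (ne_rt P h1)).2

/-- The potential of the hubs `w`. -/
def phiW : Hub × ℕ → ℕ
  | (Hub.z 0, 0) => 1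
  | (Hub.w _, 0) => 2
  | (Hub.w _, _ + 1) => 3
  | _ => 0

theorem phiW_lip (a b : VT P) (h : (TG P).Adj a b) : phiW a.1 ≤ phiW b.1 + 1 := by
  have key : ∀ x : Hub × ℕ, x ≠ (Hub.c, 0) →
      phiW x ≤ phiW (parN x) + 1 ∧ phiW (parN x) ≤ phiW x + 1 := by
    rintro ⟨h, l⟩ hx
    cases l with
    | succ l =>
      cases h with
      | c => simp [phiW, parN]
      | z a => cases a <;> simp [phiW, parN]
      | w b => simp [phiW, parN]
      | y q' d r => simp [phiW, parN]
    | zero =>
      cases h with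
      | c => exact absurd rfl hx
      | z a => cases a <;> simp [phiW, parN]
      | w b => simp [phiW, parN]
      | y q' d r => cases d <;> simp [phiW, parN]
  rw [adj_iff] at h
  rcases h with ⟨h1, rfl⟩ | ⟨h1, rfl⟩
  · exact (key _ (ne_rt P h1)).1
  · exact (key _ (ne_rt P h1)).2

end Pool.Agent.H442R3.PD
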